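import Pool.Agent.W761.Tail.Slln

/-!
# Functions of the far future
-/

set_option autoImplicit false

open Filter Topology MeasureTheory
open scoped ENNReal NNReal ComplexConjugate

noncomputable section

namespace Pool.Agent.W761.Tail

open Pool.Agent.W761.Gauss (BM)

variable {X : Type*} {𝒜 : MeasurableSpace X} [mX : MeasurableSpace X] {μ : Measure X} {m : ℕ}
  {T : X → X}

/-- `u` is a.e. equal to `w ∘ T^[r]` with `w` bounded and measurable for `𝒜`. -/
def W (μ : Measure X) (T : X → X) (𝒜 : MeasurableSpace X) (r : ℕ) (u : X → ℂ) : Prop :=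
  ∃ w : X → ℂ, Measurable[𝒜] w ∧ (∃ C : ℝ, ∀ x, ‖w x‖ ≤ C) ∧ u =ᵐ[μ] w ∘ T^[r]

omit mX in
theorem iter_meas (hinv : 𝒜.comap T ≤ 𝒜) (n : ℕ) : Measurable[𝒜, 𝒜] T^[n] := by
  have h1 : Measurable[𝒜, 𝒜] T := measurable_iff_comap_le.mpr hinv
  induction n with
  | zero => exact @measurable_id X 𝒜
  | succ n ih =>
    rw [Function.iterate_succ]
    exact @Measurable.comp X X X 𝒜 𝒜 𝒜 _ _ ih h1

theorem W.mono (hinv : 𝒜.comap T ≤ 𝒜) {r r' : ℕ} (h : r ≤ r') {u : X → ℂ}
    (hu : W μ T 𝒜 r' u) : W μ T 𝒜 r u := by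
  obtain ⟨w, hw, ⟨C, hC⟩, e⟩ := hu
  refine ⟨w ∘ T^[r' - r], ?_, ⟨C, fun x => hC _⟩, ?_⟩
  · exact @Measurable.comp X X ℂ 𝒜 𝒜 _ _ _ hw (iter_meas hinv _)
  · refine e.trans (Eventually.of_forall fun x => ?_)
    show w (T^[r'] x) = w (T^[r' - r] (T^[r] x))
    rw [← Function.iterate_add_apply, Nat.sub_add_cancel h]

theorem W.comp (hT : MeasurePreserving T μ μ) {r : ℕ} (t : ℕ) {u : X → ℂ}
    (hu : W μ T 𝒜 r u) : W μ T 𝒜 (r + t) (u ∘ T^[t]) := by
  obtain ⟨w, hw, hC, e⟩ := hu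
  refine ⟨w, hw, hC, ?_⟩
  refine ((hT.iterate t).quasiMeasurePreserving.ae_eq_comp e).trans
    (Eventually.of_forall fun x => ?_)
  show w (T^[r] (T^[t] x)) = w (T^[r + t] x)
  rw [← Function.iterate_add_apply]

theorem W.mul {r : ℕ} {u v : X → ℂ} (hu : W μ T 𝒜 r u) (hv : W μ T 𝒜 r v) :
    W μ T 𝒜 r (fun x => u x * v x) := by
  obtain ⟨w, hw, ⟨C, hC⟩, e⟩ := hu
  obtain ⟨w', hw', ⟨C', hC'⟩, e'⟩ := hv
  refine ⟨fun x => w x * w' x, hw.mul hw', ⟨|C| * |C'|, fun x => ?_⟩, ?_⟩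
  · rw [norm_mul]
    exact mul_le_mul ((hC x).trans (le_abs_self _)) ((hC' x).trans (le_abs_self _))
      (norm_nonneg _) (abs_nonneg _)
  · filter_upwards [e, e'] with x hx hx'
    rw [hx, hx']
    rfl

theorem W.conj {r : ℕ} {u : X → ℂ} (hu : W μ T 𝒜 r u) :
    W μ T 𝒜 r (fun x => conj (u x)) := by
  obtain ⟨w, hw, ⟨C, hC⟩, e⟩ := hu
  refine ⟨fun x => conj (w x), Complex.continuous_conj.measurable.comp hw, ⟨C, fun x => ?_⟩, ?_⟩
  · rw [RCLike.norm_conj]
    exact hC x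
  · filter_upwards [e] with x hx
    rw [hx]
    rfl

theorem W.prod {ι : Type*} {r : ℕ} (s : Finset ι) {u : ι → X → ℂ}
    (hu : ∀ i ∈ s, W μ T 𝒜 r (u i)) : W μ T 𝒜 r (fun x => ∏ i ∈ s, u i x) := by
  classical
  induction s using Finset.induction_on with
  | empty => exact ⟨fun _ => 1, measurable_const, ⟨1, fun _ => by simp⟩, by simp; rfl⟩
  | insert i s hi ih =>
    simp only [Finset.prod_insert hi]
    exact (hu i (Finset.mem_insert_self i s)).mul
      (ih fun j hj => hu j (Finset.mem_insert_of_mem hj))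

/-- Orthogonality to the functions of the far future. -/
def Cen (μ : Measure X) (T : X → X) (𝒜 : MeasurableSpace X) (k : ℕ) (φ : X → ℂ) : Prop :=
  ∀ w : X → ℂ, Measurable[𝒜] w → (∃ C : ℝ, ∀ x, ‖w x‖ ≤ C) → ∫ x, φ x * w (T^[k] x) ∂μ = 0

theorem Cen.zero (h𝒜 : 𝒜 ≤ mX) (hT : MeasurePreserving T μ μ) {φ : X → ℂ} (hφm : Measurable φ)
    {k : ℕ} (hφ : Cen μ T 𝒜 k φ) (s : ℕ) {u : X → ℂ} (hu : W μ T 𝒜 (k + s) u) :
    ∫ x, φ (T^[s] x) * u x ∂μ = 0 := by
  obtain ⟨w, hw, hC, e⟩ := hu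
  have hw' : Measurable w := hw.mono h𝒜 le_rfl
  have h1 : ∫ x, φ (T^[s] x) * u x ∂μ = ∫ x, φ (T^[s] x) * w (T^[k] (T^[s] x)) ∂μ := by
    apply integral_congr_ae
    filter_upwards [e] with x hx
    rw [hx, Function.comp_apply, Function.iterate_add_apply]
  rw [h1]
  have h2 := integral_map (μ := μ) (φ := T^[s]) (f := fun x => φ x * w (T^[k] x))
    (hT.iterate s).measurable.aemeasurable
    (hφm.mul (hw'.comp (hT.iterate k).measurable)).aestronglyMeasurable
  rw [(hT.iterate s).map_eq] at h2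
  rw [← h2]
  exact hφ w hw hC

theorem comap_iter_le (h𝒜 : 𝒜 ≤ mX) (hT : Measurable T) (k : ℕ) : 𝒜.comap T^[k] ≤ mX := by
  have h1 : Measurable[mX, 𝒜] T^[k] := (hT.iterate k).mono le_rfl h𝒜
  exact measurable_iff_comap_le.mp h1

omit mX in
theorem comap_anti (hinv : 𝒜.comap T ≤ 𝒜) {k l : ℕ} (h : k ≤ l) :
    𝒜.comap T^[l] ≤ 𝒜.comap T^[k] := by
  have h1 : T^[l] = T^[l - k] ∘ T^[k] := by
    rw [← Function.iterate_add, Nat.sub_add_cancel h]
  rw [h1, ← MeasurableSpace.comap_comp]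
  exact MeasurableSpace.comap_mono (measurable_iff_comap_le.mp (iter_meas hinv _))

omit mX in
theorem trunc_meas {m₀ : MeasurableSpace X} {u : X → ℂ} (hu : Measurable[m₀] u) (C : ℝ) :
    Measurable[m₀] fun x => if ‖u x‖ ≤ C then u x else 0 :=
  Measurable.ite (measurableSet_le hu.norm measurable_const) hu measurable_const

theorem W.of_aesm {k : ℕ} {u : X → ℂ} {C : ℝ} (hC : ∀ᵐ x ∂μ, ‖u x‖ ≤ C)
    (hu : AEStronglyMeasurable[𝒜.comap T^[k]] u μ) : W μ T 𝒜 k u := by
  obtain ⟨v, hv, e⟩ := hu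
  obtain ⟨w, hw, rfl⟩ := StronglyMeasurable.exists_eq_measurable_comp (mY := 𝒜) hv
  have hwm : Measurable[𝒜] w := hw.measurable
  refine ⟨fun x => if ‖w x‖ ≤ C then w x else 0, ?_, ⟨|C|, fun x => ?_⟩, ?_⟩
  · exact trunc_meas hwm C
  · show ‖if ‖w x‖ ≤ C then w x else 0‖ ≤ |C|
    split_ifs with h
    · exact h.trans (le_abs_self _)
    · simp
  · filter_upwards [e, hC] with x hx hx'
    rw [hx, Function.comp_apply] at hx'
    rw [hx, Function.comp_apply]
    show w (T^[k] x) = if ‖w (T^[k] x)‖ ≤ C then w (T^[k] x) else 0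
    rw [if_pos hx']

/-- The decomposition of a bounded function. -/
theorem decomp [IsProbabilityMeasure μ] (h𝒜 : 𝒜 ≤ mX) (hinv : 𝒜.comap T ≤ 𝒜)
    (hT : MeasurePreserving T μ μ) {f : X → ℂ} (hf : Measurable[𝒜] f) {C : ℝ}
    (hC : ∀ x, ‖f x‖ ≤ C) :
    ∃ v : X → ℂ, Measurable v ∧ (∀ x, ‖v x‖ ≤ C) ∧ (∀ k, W μ T 𝒜 k v) ∧
      ∀ ε : ℝ, 0 < ε → ∃ k : ℕ, ∃ φ : X → ℂ, Measurable[𝒜] φ ∧ (∀ x, ‖φ x‖ ≤ C + C) ∧
        Cen μ T 𝒜 k φ ∧ ∫ x, ‖f x - (φ x + v x)‖ ∂μ ≤ ε := by
  have hC0 : 0 ≤ C := by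
    obtain ⟨x⟩ : Nonempty X := by
      by_contra h
      rw [not_nonempty_iff] at h
      have h1 : μ Set.univ = 0 := by
        rw [Set.univ_eq_empty_iff.mpr h, measure_empty]
      rw [measure_univ] at h1
      exact one_ne_zero h1
    exact (norm_nonneg _).trans (hC x)
  have hfm : Measurable f := hf.mono h𝒜 le_rfl
  have hle : ∀ k, 𝒜.comap T^[k] ≤ mX := fun k => comap_iter_le h𝒜 hT.measurable k
  have hf2 : MemLp f 2 μ := MemLp.of_bound hfm.aestronglyMeasurable C (Eventually.of_forall hC)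
  let F : Lp ℂ 2 μ := hf2.toLp f
  let K : ℕ → Submodule ℂ (Lp ℂ 2 μ) := fun k => lpMeas ℂ ℂ (𝒜.comap T^[k]) 2 μ
  have : ∀ k, Fact (𝒜.comap T^[k] ≤ mX) := fun k => ⟨hle k⟩
  have hKcl : ∀ k, IsClosed (K k : Set (Lp ℂ 2 μ)) := by
    intro k
    have h1 : (K k : Set (Lp ℂ 2 μ)) = {f : Lp ℂ 2 μ | AEStronglyMeasurable[𝒜.comap T^[k]] f μ} := by
      ext g
      exact mem_lpMeas_iff_aestronglyMeasurable
    rw [h1]
    exact isClosed_aestronglyMeasurable (hle k)
  have hKo : ∀ k, (K k).HasOrthogonalProjection := fun k => by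
    have : CompleteSpace (K k) := (hKcl k).completeSpace_coe
    infer_instance
  have hKanti : ∀ {k l : ℕ}, k ≤ l → K l ≤ K k := by
    intro k l h g hg
    rw [mem_lpMeas_iff_aestronglyMeasurable] at hg ⊢
    exact hg.mono (comap_anti hinv h)
  let U : ℕ → Submodule ℂ (Lp ℂ 2 μ) := fun k => (K k)ᗮ
  have hU : Monotone U := fun k l h => Submodule.orthogonal_le (hKanti h)
  have : (⨆ i, U i).topologicalClosure.HasOrthogonalProjection := by
    have : CompleteSpace (⨆ i, U i).topologicalClosure :=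
      (Submodule.isClosed_topologicalClosure _).completeSpace_coe
    infer_instance
  have hlim := Submodule.starProjection_tendsto_closure_iSup U hU F
  set Z : Lp ℂ 2 μ := (⨆ i, U i).topologicalClosure.starProjection F with hZ
  let V : Lp ℂ 2 μ := F - Z
  have hproj : ∀ k, (K k).starProjection F = F - (U k).starProjection F := by
    intro k
    have h1 := Submodule.starProjection_add_starProjection_orthogonal (K := K k) F
    rw [eq_sub_iff_add_eq]
    exact h1
  have hlim' : Tendsto (fun k => (K k).starProjection F) atTop (𝓝 V) := by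
    simp only [hproj]
    exact tendsto_const_nhds.sub hlim
  have hVmem : ∀ k, V ∈ K k := by
    intro k
    refine (hKcl k).mem_of_tendsto hlim' ?_
    filter_upwards [eventually_ge_atTop k] with l hl
    exact hKanti hl (Submodule.starProjection_apply_mem _ _)
  have hE : ∀ k, ((K k).starProjection F : X → ℂ) =ᵐ[μ] μ[f | 𝒜.comap T^[k]] := by
    intro k
    exact hf2.condExpL2_ae_eq_condExp (𝕜 := ℂ) (hle k)
  have hEb : ∀ k, ∀ᵐ x ∂μ, ‖(μ[f | 𝒜.comap T^[k]]) x‖ ≤ C := fun k =>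
    ae_bdd_norm_condExp_of_ae_bdd_norm (Eventually.of_forall hC)
  have hVb : ∀ᵐ x ∂μ, ‖V x‖ ≤ C := by
    have h1 : TendstoInMeasure μ (fun k => ((K k).starProjection F : X → ℂ)) atTop V :=
      tendstoInMeasure_of_tendsto_Lp hlim'
    obtain ⟨ns, _, hns⟩ := h1.exists_seq_tendsto_ae
    have h2 : ∀ᵐ x ∂μ, ∀ k, ‖((K k).starProjection F : X → ℂ) x‖ ≤ C := by
      rw [ae_all_iff]
      intro k
      filter_upwards [hE k, hEb k] with x hx hx'
      rwa [hx]
    filter_upwards [hns, h2] with x hx hx'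
    exact le_of_tendsto hx.norm (Eventually.of_forall fun i => hx' _)
  have hVm : ∀ k, AEStronglyMeasurable[𝒜.comap T^[k]] (V : X → ℂ) μ := fun k =>
    mem_lpMeas_iff_aestronglyMeasurable.mp (hVmem k)
  -- the representative
  let V' : X → ℂ := (Lp.aestronglyMeasurable V).mk V
  have hV'm : Measurable V' := (Lp.aestronglyMeasurable V).stronglyMeasurable_mk.measurable
  have hV'e : (V : X → ℂ) =ᵐ[μ] V' := (Lp.aestronglyMeasurable V).ae_eq_mk
  let v : X → ℂ := fun x => if ‖V' x‖ ≤ C then V' x else 0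
  have hvm : Measurable v :=
    Measurable.ite (measurableSet_le hV'm.norm measurable_const) hV'm measurable_const
  have hvb : ∀ x, ‖v x‖ ≤ C := by
    intro x
    show ‖if ‖V' x‖ ≤ C then V' x else 0‖ ≤ C
    split_ifs with h
    · exact h
    · simpa using hC0
  have hve : (V : X → ℂ) =ᵐ[μ] v := by
    filter_upwards [hV'e, hVb] with x hx hx'
    rw [hx] at hx'
    rw [hx]
    show V' x = if ‖V' x‖ ≤ C then V' x else 0
    rw [if_pos hx']
  refine ⟨v, hvm, hvb, fun k => ?_, fun ε hε => ?_⟩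
  · exact W.of_aesm (Eventually.of_forall hvb) ((hVm k).congr hve)
  · have h1 : Tendsto (fun k => ‖(K k).starProjection F - V‖) atTop (𝓝 0) := by
      have := (hlim'.sub_const V).norm
      rwa [sub_self, norm_zero] at this
    obtain ⟨k, hk⟩ := ((tendsto_order.mp h1).2 ε hε).exists
    have hEsm : StronglyMeasurable[𝒜.comap T^[k]] (μ[f | 𝒜.comap T^[k]]) :=
      stronglyMeasurable_condExp
    let e : X → ℂ := fun x => if ‖(μ[f | 𝒜.comap T^[k]]) x‖ ≤ C then
      (μ[f | 𝒜.comap T^[k]]) x else 0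
    have hem : Measurable[𝒜.comap T^[k]] e :=
      trunc_meas hEsm.measurable C
    have heb : ∀ x, ‖e x‖ ≤ C := by
      intro x
      show ‖if ‖(μ[f | 𝒜.comap T^[k]]) x‖ ≤ C then (μ[f | 𝒜.comap T^[k]]) x else 0‖ ≤ C
      split_ifs with h
      · exact h
      · simpa using hC0
    have hee : μ[f | 𝒜.comap T^[k]] =ᵐ[μ] e := by
      filter_upwards [hEb k] with x hx
      show _ = if ‖(μ[f | 𝒜.comap T^[k]]) x‖ ≤ C then (μ[f | 𝒜.comap T^[k]]) x else 0
      rw [if_pos hx]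
    have hcomap : 𝒜.comap T^[k] ≤ 𝒜 := measurable_iff_comap_le.mp (iter_meas hinv k)
    have hfi : Integrable f μ := hf2.integrable one_le_two
    refine ⟨k, fun x => f x - e x, ?_, fun x => ?_, ?_, ?_⟩
    · exact hf.sub (hem.mono hcomap le_rfl)
    · exact (norm_sub_le _ _).trans (add_le_add (hC x) (heb x))
    · intro w hw hwC
      obtain ⟨D, hD⟩ := hwC
      have hw' : Measurable w := hw.mono h𝒜 le_rfl
      have hwk : Measurable fun x => w (T^[k] x) := hw'.comp (hT.iterate k).measurable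
      have hwks : StronglyMeasurable[𝒜.comap T^[k]] fun x => w (T^[k] x) :=
        (hw.stronglyMeasurable).comp_measurable (comap_measurable _)
      have hi1 : Integrable (fun x => f x * w (T^[k] x)) μ := by
        refine Integrable.of_bound (hfm.mul hwk).aestronglyMeasurable (C * |D|)
          (Eventually.of_forall fun x => ?_)
        rw [norm_mul]
        exact mul_le_mul (hC x) ((hD _).trans (le_abs_self _)) (norm_nonneg _) hC0
      have hi2 : Integrable (fun x => e x * w (T^[k] x)) μ := by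
        refine Integrable.of_bound ((hem.mono (hle k) le_rfl).mul hwk).aestronglyMeasurable (C * |D|)
          (Eventually.of_forall fun x => ?_)
        rw [norm_mul]
        exact mul_le_mul (heb x) ((hD _).trans (le_abs_self _)) (norm_nonneg _) hC0
      have h2 := condExp_bilin_of_aestronglyMeasurable_right (μ := μ) (m := 𝒜.comap T^[k])
        (ContinuousLinearMap.mul ℝ ℂ) (f := f) (g := fun x => w (T^[k] x))
        hwks.aestronglyMeasurable hi1 hfi
      have h3 : ∫ x, (μ[fun x => f x * w (T^[k] x) | 𝒜.comap T^[k]]) x ∂μ =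
          ∫ x, f x * w (T^[k] x) ∂μ := integral_condExp (hle k)
      have h4 : ∫ x, (μ[fun x => f x * w (T^[k] x) | 𝒜.comap T^[k]]) x ∂μ =
          ∫ x, e x * w (T^[k] x) ∂μ := by
        apply integral_congr_ae
        filter_upwards [h2, hee] with x hx hx'
        refine hx.trans ?_
        show (μ[f | 𝒜.comap T^[k]]) x * w (T^[k] x) = _
        rw [hx']
      have h5 : ∫ x, (f x - e x) * w (T^[k] x) ∂μ =
          ∫ x, f x * w (T^[k] x) ∂μ - ∫ x, e x * w (T^[k] x) ∂μ := by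
        rw [← integral_sub hi1 hi2]
        congr 1
        funext x
        ring
      rw [h5, ← h3, h4, sub_self]
    · have h6 : ∫ x, ‖f x - (f x - e x + v x)‖ ∂μ =
          ∫ x, ‖(((K k).starProjection F - V : Lp ℂ 2 μ) : X → ℂ) x‖ ∂μ := by
        apply integral_congr_ae
        filter_upwards [Lp.coeFn_sub ((K k).starProjection F) V, hE k, hee, hve] with x h1 h2 h3 h4
        rw [h1, Pi.sub_apply, h2, h3, h4]
        congr 1
        ring
      rw [h6]
      refine le_trans ?_ hk.le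
      have h7 := eLpNorm_le_eLpNorm_of_exponent_le (μ := μ) (p := 1) (q := 2) (by norm_num)
        (Lp.aestronglyMeasurable ((K k).starProjection F - V))
      have h8 : ∫ x, ‖(((K k).starProjection F - V : Lp ℂ 2 μ) : X → ℂ) x‖ ∂μ =
          (eLpNorm (((K k).starProjection F - V : Lp ℂ 2 μ) : X → ℂ) 1 μ).toReal := by
        rw [eLpNorm_one_eq_lintegral_enorm, integral_norm_eq_lintegral_enorm
          (Lp.aestronglyMeasurable _)]
      rw [h8, Lp.norm_def]
      exact ENNReal.toReal_mono (Lp.eLpNorm_ne_top _) h7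

end Pool.Agent.W761.Tail
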