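import Pool.Agent.W761.Tail.Red

/-!
# Systems whose tail is a factor of a Gaussian system
-/

set_option autoImplicit false

open Filter Topology MeasureTheory ProbabilityTheory
open scoped ENNReal NNReal ComplexConjugate symmDiff

noncomputable section

namespace Pool.Agent.W761.Tail

open Pool.Agent.W761.Gauss

/-- Measurability for a σ-algebra which agrees modulo null sets. -/
theorem aesm_of_sets {X : Type} {m₁ m₂ : MeasurableSpace X} [mX : MeasurableSpace X]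
    {μ : Measure X} [IsProbabilityMeasure μ] (h₁ : m₁ ≤ mX) (h₂ : m₂ ≤ mX) (h : ∀ B, MeasurableSet[m₁] B → ∃ D, MeasurableSet[m₂] D ∧ B =ᵐ[μ] D)
    {f : X → ℂ} (hf : Measurable[m₁] f) {C : ℝ} (hC : ∀ x, ‖f x‖ ≤ C) :
    AEStronglyMeasurable[m₂] f μ := by
  have hfm : Measurable f := hf.mono h₁ le_rfl
  have hf2 : MemLp f 2 μ := MemLp.of_bound hfm.aestronglyMeasurable C (Eventually.of_forall hC)
  have : Fact ((1 : ℝ≥0∞) ≤ 2) := ⟨one_le_two⟩
  refine MemLp.induction_stronglyMeasurable h₁ (by norm_num : (2 : ℝ≥0∞) ≠ ∞)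
    (fun f => AEStronglyMeasurable[m₂] f μ) ?_ ?_ ?_ ?_ hf2 hf.stronglyMeasurable.aestronglyMeasurable
  · intro c s hs _
    obtain ⟨D, hD, e⟩ := h s hs
    refine ⟨D.indicator fun _ => c, stronglyMeasurable_const.indicator hD, ?_⟩
    exact indicator_ae_eq_of_ae_eq_set e
  · intro f g _ _ _ _ _ hf hg
    exact hf.add hg
  · have h3 : IsClosed {f : Lp ℂ 2 μ | AEStronglyMeasurable[m₂] f μ} :=
      isClosed_aestronglyMeasurable h₂
    exact h3.preimage continuous_subtype_val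
  · intro f g hfg _ hf
    exact hf.congr hfg

section approx

variable {X : Type} {𝒜 : MeasurableSpace X} [mX : MeasurableSpace X] {μ : Measure X} {m : ℕ}
  {T : X → X}

/-- `𝒜` is invariant, and the sets measurable for `𝒜` approximate all measurable sets, up to
powers of `T`. -/
structure IsExhaustive {X : Type} [mX : MeasurableSpace X] (μ : Measure X) (T : X → X)
    (𝒜 : MeasurableSpace X) : Prop where
  le : 𝒜 ≤ mX
  inv : ∀ B, MeasurableSet[𝒜] B → MeasurableSet[𝒜] (T ⁻¹' B)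
  gen : ∀ B, MeasurableSet[mX] B → ∀ ε : ℝ, 0 < ε → ∃ (k : ℕ) (C : Set X),
    MeasurableSet[𝒜] C ∧ μ.real ((T^[k] ⁻¹' B) ∆ C) ≤ ε

/-- The sets of the tail of `𝒜`, modulo null sets. -/
def IsTailSet {X : Type} [mX : MeasurableSpace X] (μ : Measure X) (T : X → X)
    (𝒜 : MeasurableSpace X) (B : Set X) : Prop :=
  MeasurableSet[mX] B ∧ ∀ k : ℕ, ∃ C : Set X, MeasurableSet[𝒜] C ∧ B =ᵐ[μ] T^[k] ⁻¹' C

theorem IsExhaustive.comap_le (h : IsExhaustive μ T 𝒜) : 𝒜.comap T ≤ 𝒜 := by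
  rintro _ ⟨B, hB, rfl⟩
  exact h.inv B hB

/-- Approximation of functions, first form. -/
theorem IsExhaustive.approx₁ [IsProbabilityMeasure μ] (h : IsExhaustive μ T 𝒜)
    (hT : MeasurePreserving T μ μ) {f : X → ℂ} (hf : Integrable f μ) :
    ∀ ε : ℝ, 0 < ε → ∃ k₀ : ℕ, ∀ k, k₀ ≤ k → ∃ g : X → ℂ, Measurable[𝒜] g ∧ Integrable g μ ∧
      ∫ x, ‖f (T^[k] x) - g x‖ ∂μ ≤ ε := by
  have hTk : ∀ k, MeasurePreserving T^[k] μ μ := fun k => hT.iterate k
  have hcomp : ∀ {f : X → ℂ} (k : ℕ), Integrable f μ → Integrable (fun x => f (T^[k] x)) μ :=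
    fun k hf => (hTk k).integrable_comp_of_integrable hf
  refine Integrable.induction (P := fun f => ∀ ε : ℝ, 0 < ε → ∃ k₀ : ℕ, ∀ k, k₀ ≤ k →
    ∃ g : X → ℂ, Measurable[𝒜] g ∧ Integrable g μ ∧ ∫ x, ‖f (T^[k] x) - g x‖ ∂μ ≤ ε)
    ?_ ?_ ?_ ?_ hf
  · intro c s hs _ ε hε
    obtain ⟨k₀, C, hC, hsC⟩ := h.gen s hs (ε / (‖c‖ + 1)) (by positivity)
    refine ⟨k₀, fun k hk => ⟨(T^[k - k₀] ⁻¹' C).indicator fun _ => c, ?_, ?_, ?_⟩⟩
    · have h1 : Measurable[𝒜, 𝒜] T^[k - k₀] := iter_meas h.comap_le _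
      exact measurable_const.indicator (h1 hC)
    · exact (integrable_const c).indicator ((hTk _).measurable (h.le _ hC))
    · have h2 : ∀ x, ‖s.indicator (fun _ => c) (T^[k] x) -
          (T^[k - k₀] ⁻¹' C).indicator (fun _ => c) x‖ =
          ((T^[k - k₀] ⁻¹' ((T^[k₀] ⁻¹' s) ∆ C)).indicator fun _ => ‖c‖) x := by
        intro x
        have e1 : T^[k] x = T^[k₀] (T^[k - k₀] x) := by
          rw [← Function.iterate_add_apply, Nat.add_sub_cancel' hk]
        rw [e1]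
        have hm : x ∈ T^[k - k₀] ⁻¹' ((T^[k₀] ⁻¹' s) ∆ C) ↔
            (T^[k₀] (T^[k - k₀] x) ∈ s ∧ ¬ T^[k - k₀] x ∈ C) ∨
            (T^[k - k₀] x ∈ C ∧ ¬ T^[k₀] (T^[k - k₀] x) ∈ s) := Iff.rfl
        by_cases a : T^[k₀] (T^[k - k₀] x) ∈ s <;> by_cases b : T^[k - k₀] x ∈ C
        · rw [Set.indicator_of_mem a, Set.indicator_of_mem (show x ∈ T^[k - k₀] ⁻¹' C from b),
            Set.indicator_of_notMem (by rw [hm]; tauto), sub_self, norm_zero]
        · rw [Set.indicator_of_mem a, Set.indicator_of_notMem (show x ∉ T^[k - k₀] ⁻¹' C from b),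
            Set.indicator_of_mem (hm.mpr (Or.inl ⟨a, b⟩)), sub_zero]
        · rw [Set.indicator_of_notMem a, Set.indicator_of_mem (show x ∈ T^[k - k₀] ⁻¹' C from b),
            Set.indicator_of_mem (hm.mpr (Or.inr ⟨b, a⟩)), zero_sub, norm_neg]
        · rw [Set.indicator_of_notMem a, Set.indicator_of_notMem (show x ∉ T^[k - k₀] ⁻¹' C from b),
            Set.indicator_of_notMem (by rw [hm]; tauto), sub_self, norm_zero]
      simp only [h2]
      have h3 : MeasurableSet ((T^[k₀] ⁻¹' s) ∆ C) :=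
        ((hTk k₀).measurable hs).symmDiff (h.le _ hC)
      rw [integral_indicator_const _ ((hTk _).measurable h3)]
      have h4 : μ.real (T^[k - k₀] ⁻¹' ((T^[k₀] ⁻¹' s) ∆ C)) = μ.real ((T^[k₀] ⁻¹' s) ∆ C) := by
        rw [measureReal_def, measureReal_def, (hTk _).measure_preimage h3.nullMeasurableSet]
      rw [h4, smul_eq_mul]
      calc μ.real ((T^[k₀] ⁻¹' s) ∆ C) * ‖c‖ ≤ ε / (‖c‖ + 1) * (‖c‖ + 1) :=
            mul_le_mul hsC (by linarith) (norm_nonneg _) (by positivity)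
        _ = ε := by field_simp
  · intro f g _ hf hg ihf ihg ε hε
    obtain ⟨k₁, h1⟩ := ihf (ε / 2) (by positivity)
    obtain ⟨k₂, h2⟩ := ihg (ε / 2) (by positivity)
    refine ⟨max k₁ k₂, fun k hk => ?_⟩
    obtain ⟨u, hu, hui, hfu⟩ := h1 k ((le_max_left _ _).trans hk)
    obtain ⟨v, hv, hvi, hgv⟩ := h2 k ((le_max_right _ _).trans hk)
    refine ⟨fun x => u x + v x, hu.add hv, hui.add hvi, ?_⟩
    have i1 : Integrable (fun x => ‖f (T^[k] x) - u x‖) μ := ((hcomp k hf).sub hui).norm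
    have i2 : Integrable (fun x => ‖g (T^[k] x) - v x‖) μ := ((hcomp k hg).sub hvi).norm
    calc ∫ x, ‖(f + g) (T^[k] x) - (u x + v x)‖ ∂μ ≤
          ∫ x, (‖f (T^[k] x) - u x‖ + ‖g (T^[k] x) - v x‖) ∂μ := by
          apply integral_mono ((hcomp k (hf.add hg)).sub (hui.add hvi)).norm (i1.add i2)
          intro x
          show ‖f (T^[k] x) + g (T^[k] x) - (u x + v x)‖ ≤ _
          rw [add_sub_add_comm]
          exact norm_add_le _ _
      _ = _ := integral_add i1 i2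
      _ ≤ ε := by linarith
  · rw [isClosed_iff_clusterPt]
    intro F hF ε hε
    rw [← mem_closure_iff_clusterPt, Metric.mem_closure_iff] at hF
    obtain ⟨G, hG, hFG⟩ := hF (ε / 2) (by positivity)
    obtain ⟨k₀, h1⟩ := hG (ε / 2) (by positivity)
    refine ⟨k₀, fun k hk => ?_⟩
    obtain ⟨g, hg, hgi, hGg⟩ := h1 k hk
    refine ⟨g, hg, hgi, ?_⟩
    have iF : Integrable (F : X → ℂ) μ := L1.integrable_coeFn F
    have iG : Integrable (G : X → ℂ) μ := L1.integrable_coeFn G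
    have i1 : Integrable (fun x => ‖F (T^[k] x) - G (T^[k] x)‖) μ :=
      ((hcomp k iF).sub (hcomp k iG)).norm
    have i2 : Integrable (fun x => ‖G (T^[k] x) - g x‖) μ := ((hcomp k iG).sub hgi).norm
    have h3 : ∫ x, ‖F (T^[k] x) - G (T^[k] x)‖ ∂μ = ∫ x, ‖F x - G x‖ ∂μ := by
      have h4 := integral_map (μ := μ) (φ := T^[k]) (f := fun x => ‖F x - G x‖)
        (hTk k).measurable.aemeasurable (by
          rw [(hTk k).map_eq]
          exact (iF.sub iG).norm.aestronglyMeasurable)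
      rw [(hTk k).map_eq] at h4
      exact h4.symm
    have h5 : ∫ x, ‖F x - G x‖ ∂μ ≤ ε / 2 := by
      have h6 : ∫ x, ‖F x - G x‖ ∂μ = dist F G := by
        rw [dist_eq_norm, L1.norm_eq_integral_norm]
        apply integral_congr_ae
        filter_upwards [Lp.coeFn_sub F G] with x hx
        rw [hx]
        rfl
      rw [h6]
      exact hFG.le
    calc ∫ x, ‖F (T^[k] x) - g x‖ ∂μ ≤
          ∫ x, (‖F (T^[k] x) - G (T^[k] x)‖ + ‖G (T^[k] x) - g x‖) ∂μ := by
          apply integral_mono ((hcomp k iF).sub hgi).norm (i1.add i2)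
          intro x
          exact norm_sub_le_norm_sub_add_norm_sub _ _ _
      _ = _ := integral_add i1 i2
      _ ≤ ε := by linarith
  · intro f g hfg hf ih ε hε
    obtain ⟨k₀, h1⟩ := ih ε hε
    refine ⟨k₀, fun k hk => ?_⟩
    obtain ⟨u, hu, hui, hfu⟩ := h1 k hk
    refine ⟨u, hu, hui, le_trans (le_of_eq ?_) hfu⟩
    apply integral_congr_ae
    filter_upwards [(hTk k).quasiMeasurePreserving.ae hfg] with x hx
    rw [hx]

/-- Radial truncation. -/
def rad (C : ℝ) (z : ℂ) : ℂ := if ‖z‖ ≤ C then z else ((C / ‖z‖ : ℝ) : ℂ) * z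

theorem rad_norm {C : ℝ} (hC : 0 ≤ C) (z : ℂ) : ‖rad C z‖ ≤ C := by
  rw [rad]
  split_ifs with h
  · exact h
  · rw [not_le] at h
    have h0 : 0 < ‖z‖ := lt_of_le_of_lt hC h
    rw [norm_mul, Complex.norm_real, Real.norm_of_nonneg (by positivity),
      div_mul_cancel₀ _ h0.ne']

theorem rad_dist {C : ℝ} (hC : 0 ≤ C) {u : ℂ} (hu : ‖u‖ ≤ C) (z : ℂ) :
    ‖u - rad C z‖ ≤ 2 * ‖u - z‖ := by
  rw [rad]
  split_ifs with h
  · have := norm_nonneg (u - z)
    linarith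
  · rw [not_le] at h
    have h0 : 0 < ‖z‖ := lt_of_le_of_lt hC h
    have h1 : z - ((C / ‖z‖ : ℝ) : ℂ) * z = ((1 - C / ‖z‖ : ℝ) : ℂ) * z := by
      push_cast
      ring
    have h2 : ‖z - ((C / ‖z‖ : ℝ) : ℂ) * z‖ = ‖z‖ - C := by
      rw [h1, norm_mul, Complex.norm_real, Real.norm_of_nonneg, sub_mul, one_mul,
        div_mul_cancel₀ _ h0.ne']
      rw [sub_nonneg, div_le_one h0]
      exact h.le
    have h3 : ‖z‖ - ‖u‖ ≤ ‖u - z‖ := by
      have := norm_sub_norm_le z u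
      rwa [norm_sub_rev] at this
    have h4 := norm_sub_le_norm_sub_add_norm_sub u z (((C / ‖z‖ : ℝ) : ℂ) * z)
    linarith

omit mX in
theorem rad_meas {m₀ : MeasurableSpace X} {u : X → ℂ} (hu : Measurable[m₀] u) (C : ℝ) :
    Measurable[m₀] fun x => rad C (u x) := by
  unfold rad
  refine Measurable.ite (measurableSet_le hu.norm measurable_const) hu ?_
  exact (Complex.measurable_ofReal.comp (measurable_const.div hu.norm)).mul hu

/-- Approximation of functions, second form. -/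
theorem IsExhaustive.approx [IsProbabilityMeasure μ] (h : IsExhaustive μ T 𝒜)
    (hT : MeasurePreserving T μ μ) {f : X → ℂ} (hf : Measurable f) {C : ℝ} (hC0 : 0 ≤ C)
    (hC : ∀ x, ‖f x‖ ≤ C) (ε : ℝ) (hε : 0 < ε) : ∃ k₀ : ℕ, ∀ k, k₀ ≤ k →
      ∃ g : X → ℂ, Measurable[𝒜] g ∧ (∀ x, ‖g x‖ ≤ C) ∧ ∫ x, ‖f (T^[k] x) - g x‖ ∂μ ≤ ε := by
  have hfi : Integrable f μ := Integrable.of_bound hf.aestronglyMeasurable C
    (Eventually.of_forall hC)
  obtain ⟨k₀, h1⟩ := h.approx₁ hT hfi (ε / 2) (by positivity)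
  refine ⟨k₀, fun k hk => ?_⟩
  obtain ⟨g, hg, hgi, hfg⟩ := h1 k hk
  have hfk : Integrable (fun x => f (T^[k] x)) μ := (hT.iterate k).integrable_comp_of_integrable hfi
  have hgm : Measurable g := hg.mono h.le le_rfl
  refine ⟨fun x => rad C (g x), rad_meas hg C, fun x => rad_norm hC0 _, ?_⟩
  have i1 : Integrable (fun x => rad C (g x)) μ :=
    Integrable.of_bound (rad_meas hgm C).aestronglyMeasurable C
      (Eventually.of_forall fun x => rad_norm hC0 _)
  calc ∫ x, ‖f (T^[k] x) - rad C (g x)‖ ∂μ ≤ ∫ x, 2 * ‖f (T^[k] x) - g x‖ ∂μ := by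
        apply integral_mono (hfk.sub i1).norm ((hfk.sub hgi).norm.const_mul 2)
        intro x
        exact rad_dist hC0 (hC _) _
    _ = 2 * ∫ x, ‖f (T^[k] x) - g x‖ ∂μ := integral_const_mul _ _
    _ ≤ ε := by linarith

/-- Reduction to the tail. -/
theorem IsExhaustive.reduction [IsProbabilityMeasure μ] (h : IsExhaustive μ T 𝒜)
    (hT : MeasurePreserving T μ μ)
    (hbase : ∀ f : Fin m → X → ℂ, (∀ l, BM (f l)) → (∀ l r, W μ T 𝒜 r (f l)) → Cvg μ T f)
    {f : Fin m → X → ℂ} (hf : ∀ l, BM (f l)) : Cvg μ T f := by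
  choose hfm CF hCF using hf
  set D : ℝ := ∑ l, |CF l| with hD
  have hS : 0 ≤ D := Finset.sum_nonneg fun _ _ => abs_nonneg _
  have hfD : ∀ l x, ‖f l x‖ ≤ D := fun l x => ((hCF l x).trans (le_abs_self _)).trans
    (Finset.single_le_sum (f := fun l => |CF l|) (fun _ _ => abs_nonneg _) (Finset.mem_univ l))
  refine Cvg_closed hT hfm hfD fun ε hε => ?_
  choose k₀ hk₀ using fun l => h.approx hT (hfm l) hS (hfD l) ε hε
  set k := ∑ l, k₀ l with hk
  have hkl : ∀ l, k₀ l ≤ k := fun l => Finset.single_le_sum (f := k₀)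
    (fun _ _ => Nat.zero_le _) (Finset.mem_univ l)
  choose g hg hgD hfg using fun l => hk₀ l k (hkl l)
  refine ⟨k, g, fun l => (hg l).mono h.le le_rfl, hgD, hfg, ?_⟩
  refine red h.le h.comap_le hT hbase m 0 (Nat.zero_add m) g
    (fun l => ⟨(hg l).mono h.le le_rfl, D, hgD l⟩) (fun l hl => absurd hl (Nat.not_lt_zero _))
    fun l _ => ⟨g l, hg l, ⟨D, hgD l⟩, Eventually.of_forall fun x => rfl⟩

/-- Functions of the tail are functions on the factor. -/
theorem tail_fun [IsProbabilityMeasure μ] {Z : Type}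
    [mZ : MeasurableSpace Z] {ρ : Measure Z} {φ : X → Z} (hφ : MeasurePreserving φ μ ρ)
    (htail : ∀ B, IsTailSet μ T 𝒜 B → ∃ D, MeasurableSet D ∧ B =ᵐ[μ] φ ⁻¹' D)
    {f : X → ℂ} (hf : BM f) (hW : ∀ r, W μ T 𝒜 r f) :
    ∃ g : Z → ℂ, BM g ∧ f =ᵐ[μ] g ∘ φ := by
  obtain ⟨hfm, C, hC⟩ := hf
  have h1 : ∀ B, MeasurableSet[MeasurableSpace.comap f inferInstance] B →
      ∃ D, MeasurableSet[mZ.comap φ] D ∧ B =ᵐ[μ] D := by
    rintro _ ⟨U, hU, rfl⟩
    obtain ⟨D, hD, e⟩ := htail (f ⁻¹' U) ⟨hfm hU, fun k => by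
      obtain ⟨w, hw, _, e⟩ := hW k
      refine ⟨w ⁻¹' U, hw hU, ?_⟩
      filter_upwards [e] with x hx
      show (f x ∈ U) = (w (T^[k] x) ∈ U)
      rw [hx]
      rfl⟩
    exact ⟨φ ⁻¹' D, ⟨D, hD, rfl⟩, e⟩
  have h2 := aesm_of_sets (μ := μ) hfm.comap_le hφ.measurable.comap_le h1
    (comap_measurable f) hC
  obtain ⟨v, hv, e⟩ := h2
  obtain ⟨w, hw, rfl⟩ := StronglyMeasurable.exists_eq_measurable_comp (mY := mZ) hv
  refine ⟨fun z => if ‖w z‖ ≤ C then w z else 0, ⟨trunc_meas hw.measurable C, |C|, fun z => ?_⟩, ?_⟩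
  · show ‖if ‖w z‖ ≤ C then w z else 0‖ ≤ |C|
    split_ifs with h
    · exact h.trans (le_abs_self _)
    · simp
  · filter_upwards [e] with x hx
    have hx' := hC x
    rw [hx, Function.comp_apply] at hx'
    rw [hx, Function.comp_apply]
    show w (φ x) = if ‖w (φ x)‖ ≤ C then w (φ x) else 0
    rw [if_pos hx']

end approx

section gauss

/-- The sequence `max n 0`. -/
def pos (n : ℤ) : ℤ := max n 0

theorem A2_pos (t : ℤ → ℂ) (N : ℕ) : A2 (fun n => t (pos n)) N =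
    ((2 * N + 1 : ℕ) : ℂ)⁻¹ * (∑ n ∈ Finset.range N, t ((n : ℤ) + 1) + (N + 1) * t 0) := by
  rw [A2_split]
  congr 1
  have h1 : ∑ n ∈ Finset.range (N + 1), t (pos (n : ℤ)) =
      ∑ n ∈ Finset.range N, t ((n : ℤ) + 1) + t 0 := by
    rw [Finset.sum_range_succ']
    have h0 : ∀ n : ℕ, pos (n : ℤ) = n := fun n => max_eq_left (Int.natCast_nonneg n)
    simp only [h0]
    push_cast
    rfl
  have h2 : ∑ n ∈ Finset.range (N + 1), t (pos (-(n : ℤ))) = (N + 1) * t 0 := by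
    have h3 : ∀ n ∈ Finset.range (N + 1), t (pos (-(n : ℤ))) = t 0 := by
      intro n _
      congr 1
      rw [pos, max_eq_right]
      omega
    rw [Finset.sum_congr rfl h3, Finset.sum_const, Finset.card_range, nsmul_eq_mul]
    push_cast
    ring
  rw [h1, h2]
  have h4 : pos 0 = 0 := by
    rw [pos, max_self]
  rw [h4]
  ring

theorem conv_of_A2_pos {t : ℤ → ℂ} {L : ℂ} (h : Tendsto (A2 fun n => t (pos n)) atTop (𝓝 L)) :
    Tendsto (A fun n => t ((n : ℤ) + 1)) atTop (𝓝 (2 * L - t 0)) := by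
  have h1 : Tendsto (fun N : ℕ => (N : ℂ)⁻¹) atTop (𝓝 0) := tendsto_inv_atTop_nhds_zero_nat
  have h2 : Tendsto (fun N : ℕ => (2 + (N : ℂ)⁻¹) * A2 (fun n => t (pos n)) N -
      (1 + (N : ℂ)⁻¹) * t 0) atTop (𝓝 ((2 + 0) * L - (1 + 0) * t 0)) :=
    ((tendsto_const_nhds.add h1).mul h).sub ((tendsto_const_nhds.add h1).mul_const _)
  simp only [add_zero, one_mul] at h2
  refine h2.congr' ?_
  filter_upwards [eventually_ge_atTop 1] with N hN
  rw [A2_pos, A]
  have h3 : (N : ℂ) ≠ 0 := by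
    rw [Nat.cast_ne_zero]
    omega
  have h4 : (2 * (N : ℂ) + 1) ≠ 0 := by
    have h5 : ((2 * N + 1 : ℕ) : ℂ) ≠ 0 := by
      rw [Nat.cast_ne_zero]
      omega
    push_cast at h5
    exact h5
  push_cast
  field_simp
  ring

theorem PG_pos : PG pos := by
  intro Ω _ P _ τ hτ' hτ F hF hb
  obtain ⟨C, hC⟩ := hb
  have h1 := H165R3.BPE.birkhoff hτ (fun ω => (F ω).re) (Complex.measurable_re.comp hF) C
    fun ω => (Complex.abs_re_le_norm _).trans (hC ω)
  have h2 := H165R3.BPE.birkhoff hτ (fun ω => (F ω).im) (Complex.measurable_im.comp hF) C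
    fun ω => (Complex.abs_im_le_norm _).trans (hC ω)
  filter_upwards [h1, h2] with ω hω1 hω2
  refine ⟨_, A2_tendsto (Tendsto.congr (fun N => ?_)
    (((Complex.continuous_ofReal.tendsto _).comp hω1).add
    (((Complex.continuous_ofReal.tendsto _).comp hω2).mul_const Complex.I))) (L' := F ω) ?_⟩
  · simp only [Function.comp_apply]
    push_cast
    rw [mul_assoc, ← mul_add, Finset.sum_mul, ← Finset.sum_add_distrib]
    congr 1
    apply Finset.sum_congr rfl
    intro n _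
    rw [pos, max_eq_left (by positivity), zpow_natCast, ← Equiv.Perm.iterate_eq_pow]
    exact Complex.re_add_im _
  · refine tendsto_const_nhds.congr' ?_
    filter_upwards [eventually_ge_atTop 1] with N hN
    have h3 : ∀ n ∈ Finset.range N, F ((τ ^ pos (-(n : ℤ))) ω) = F ω := by
      intro n _
      have h4 : pos (-(n : ℤ)) = 0 := by
        rw [pos, max_eq_right]
        omega
      rw [h4, zpow_zero]
      rfl
    rw [Finset.sum_congr rfl h3, Finset.sum_const, Finset.card_range, nsmul_eq_mul, ← mul_assoc,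
      inv_mul_cancel₀, one_mul]
    rw [Nat.cast_ne_zero]
    omega

/-- `S` is a Gaussian automorphism of the probability space `(Y, ν)`: it is invertible, measurable
with measurable inverse and measure preserving, and there is a linear space of centered Gaussian
random variables which is invariant modulo null sets under `S` and its inverse and generates the
σ-algebra modulo null sets. -/
structure IsGaussian {Y : Type} [MeasurableSpace Y] (ν : Measure Y) (S : Equiv.Perm Y) : Prop where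
  meas_symm : Measurable S.symm
  mp : MeasurePreserving S ν ν
  gauss : ∃ H : Submodule ℝ (Y → ℝ),
    (∀ h ∈ H, Measurable h ∧ ∃ v : ℝ≥0, ν.map h = gaussianReal 0 v) ∧
    (∀ h ∈ H, (∃ h' ∈ H, h ∘ S =ᵐ[ν] h') ∧ (∃ h' ∈ H, h ∘ S.symm =ᵐ[ν] h')) ∧
    (∀ A, MeasurableSet A → ∃ B,
      MeasurableSet[⨆ h : H, MeasurableSpace.comap (h : Y → ℝ) inferInstance] B ∧ A =ᵐ[ν] B)

theorem IsGaussian.action {Y : Type} [MeasurableSpace Y] {ν : Measure Y} {S : Equiv.Perm Y}
    (h : IsGaussian ν S) : IsGaussianAction ν (fun _ : Fin 1 => S) where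
  meas_symm := fun _ => h.meas_symm
  mp := fun _ => h.mp
  comm := fun _ _ => Commute.refl S
  gauss := by
    obtain ⟨H, h1, h2, h3⟩ := h.gauss
    exact ⟨H, h1, fun _ => h2, h3⟩

/-- One-sided multiple averages of Gaussian automorphisms. -/
theorem IsGaussian.conv {Y : Type} [MeasurableSpace Y] {ν : Measure Y} [IsProbabilityMeasure ν]
    {S : Equiv.Perm Y} (h : IsGaussian ν S) {m : ℕ} {f : Fin m → Y → ℂ} (hf : ∀ j, BM (f j)) :
    Cvg ν S f := by
  have h1 := h.action.conv PG_pos (fun _ j => (((j : Fin m) : ℕ) : ℤ) + 1) hf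
  filter_upwards [h1] with y hy
  obtain ⟨L, hL⟩ := hy
  have h2 := conv_of_A2_pos (t := fun n : ℤ => ∏ j, f j ((List.ofFn fun i : Fin 1 =>
    (fun _ : Fin 1 => S) i ^ (((((j : Fin m) : ℕ) : ℤ) + 1) * n)).prod y)) hL
  refine ⟨_, h2.congr fun N => ?_⟩
  rw [A, A]
  refine congrArg (fun z : ℂ => (N : ℂ)⁻¹ * z) (Finset.sum_congr rfl fun n _ => ?_)
  rw [term]
  apply Finset.prod_congr rfl
  intro j _
  rw [List.ofFn_succ, List.ofFn_zero, List.prod_singleton]
  have e1 : ((((j : ℕ) : ℤ) + 1) * ((n : ℤ) + 1)) = ((((j : ℕ) + 1) * (n + 1) : ℕ) : ℤ) := by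
    push_cast
    ring
  rw [e1, zpow_natCast, ← Equiv.Perm.iterate_eq_pow]

/-- Transfer of convergence along factor maps. -/
theorem Cvg_factor {Y Z : Type} [MeasurableSpace Y] [MeasurableSpace Z] {ν : Measure Y}
    {ρ : Measure Z} {S : Y → Y} {R : Z → Z} (hS : MeasurePreserving S ν ν) (hR : Measurable R)
    {π : Y → Z} (hπ : MeasurePreserving π ν ρ) (hπS : ∀ᵐ y ∂ν, π (S y) = R (π y)) {m : ℕ}
    {g : Fin m → Z → ℂ} (hg : ∀ j, Measurable (g j)) :
    Cvg ν S (fun j => g j ∘ π) ↔ Cvg ρ R g := by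
  have h1 : ∀ n : ℕ, ∀ᵐ y ∂ν, π (S^[n] y) = R^[n] (π y) := by
    intro n
    induction n with
    | zero => exact Eventually.of_forall fun y => rfl
    | succ n ih =>
      filter_upwards [hS.quasiMeasurePreserving.ae ih, hπS] with y hy hy'
      rw [Function.iterate_succ_apply, Function.iterate_succ_apply, hy, hy']
  have h2 : ∀ᵐ y ∂ν, ∀ n : ℕ, π (S^[n] y) = R^[n] (π y) := ae_all_iff.mpr h1
  have hms : MeasurableSet {z | ∃ L : ℂ, Tendsto (A fun n => term R g n z) atTop (𝓝 L)} := by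
    apply measurableSet_exists_tendsto
    intro N
    exact A_meas (fun n => term_meas hR hg n) N
  have h3 : (∀ᵐ z ∂ρ, z ∈ {z | ∃ L : ℂ, Tendsto (A fun n => term R g n z) atTop (𝓝 L)}) ↔
      ∀ᵐ y ∂ν, π y ∈ {z | ∃ L : ℂ, Tendsto (A fun n => term R g n z) atTop (𝓝 L)} := by
    rw [← hπ.map_eq]
    exact ae_map_iff hπ.measurable.aemeasurable hms
  have h4 : (∀ᵐ y ∂ν, π y ∈ {z | ∃ L : ℂ, Tendsto (A fun n => term R g n z) atTop (𝓝 L)}) ↔
      Cvg ν S (fun j => g j ∘ π) := by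
    apply Filter.eventually_congr
    filter_upwards [h2] with y hy
    have h5 : ∀ n, term R g n (π y) = term S (fun j => g j ∘ π) n y := by
      intro n
      rw [term, term]
      apply Finset.prod_congr rfl
      intro j _
      rw [Function.comp_apply, hy]
    show (∃ L : ℂ, Tendsto (A fun n => term R g n (π y)) atTop (𝓝 L)) ↔ _
    simp only [h5]
  exact (h3.trans h4).symm

/-- **Main theorem.** -/
theorem main {X Y Z : Type} {𝒜 : MeasurableSpace X} [mX : MeasurableSpace X]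
    [MeasurableSpace Y] [MeasurableSpace Z]
    {μ : Measure X} [IsProbabilityMeasure μ] {ν : Measure Y} [IsProbabilityMeasure ν]
    {ρ : Measure Z} {T : X → X} (hT : MeasurePreserving T μ μ)
    (h𝒜 : IsExhaustive μ T 𝒜) {R : Z → Z} (hR : Measurable R)
    {φ : X → Z} (hφ : MeasurePreserving φ μ ρ) (hφT : ∀ᵐ x ∂μ, φ (T x) = R (φ x))
    (htail : ∀ B, IsTailSet μ T 𝒜 B → ∃ D, MeasurableSet D ∧ B =ᵐ[μ] φ ⁻¹' D)
    {S : Equiv.Perm Y} (hS : IsGaussian ν S) {π : Y → Z} (hπ : MeasurePreserving π ν ρ)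
    (hπS : ∀ᵐ y ∂ν, π (S y) = R (π y)) {m : ℕ} {f : Fin m → X → ℂ}
    (hf : ∀ j, MemLp (f j) ∞ μ) :
    ∀ᵐ x ∂μ, ∃ L : ℂ, Tendsto (fun N : ℕ => (N : ℂ)⁻¹ * ∑ n ∈ Finset.Icc 1 N,
      ∏ j : Fin m, f j (T^[((j : ℕ) + 1) * n] x)) atTop (𝓝 L) := by
  choose g hg hfg using fun j => BM_of_memLp (hf j)
  have h1 : Cvg μ T g := by
    refine h𝒜.reduction hT (fun u hu huW => ?_) hg
    choose w hw huw using fun l => tail_fun hφ htail (hu l) (huW l)
    have h2 : Cvg ρ R w :=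
      (Cvg_factor hS.mp hR hπ hπS fun j => (hw j).1).mp (hS.conv fun j => by
        obtain ⟨wm, C, hC⟩ := hw j
        exact ⟨wm.comp hπ.measurable, C, fun x => hC _⟩)
    have h3 : Cvg μ T (fun j => w j ∘ φ) := (Cvg_factor hT hR hφ hφT fun j => (hw j).1).mpr h2
    exact Cvg_congr hT (fun j => (huw j).symm) h3
  have h4 : Cvg μ T f := Cvg_congr hT (fun j => (hfg j).symm) h1
  filter_upwards [h4] with x hx
  obtain ⟨L, hL⟩ := hx
  refine ⟨L, hL.congr fun N => ?_⟩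
  rw [A]
  congr 1
  have h5 := Finset.sum_Ico_add' (fun n => ∏ j : Fin m, f j (T^[((j : ℕ) + 1) * n] x)) 0 N 1
  rw [Finset.range_eq_Ico]
  exact h5

end gauss

end Pool.Agent.W761.Tail
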