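import Pool.Agent.W761.Gauss.Main

/-!
# One-sided multiple averages of a measure preserving map
-/

set_option autoImplicit false

open Filter Topology MeasureTheory
open scoped ENNReal NNReal

noncomputable section

namespace Pool.Agent.W761.Tail

open Pool.Agent.W761.Gauss (BM)

/-- One-sided averages. -/
def A (a : ℕ → ℂ) (N : ℕ) : ℂ := (N : ℂ)⁻¹ * ∑ n ∈ Finset.range N, a n

theorem A_bound {a : ℕ → ℂ} {C : ℝ} (ha : ∀ n, ‖a n‖ ≤ C) (N : ℕ) : ‖A a N‖ ≤ C := by
  have hC : 0 ≤ C := (norm_nonneg _).trans (ha 0)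
  rw [A, norm_mul, norm_inv, Complex.norm_natCast]
  rcases Nat.eq_zero_or_pos N with h | h
  · subst h
    simpa using hC
  rw [inv_mul_le_iff₀ (by exact_mod_cast h)]
  refine (norm_sum_le _ _).trans ?_
  refine (Finset.sum_le_sum fun n _ => ha n).trans ?_
  rw [Finset.sum_const, Finset.card_range, nsmul_eq_mul]

theorem A_add (a b : ℕ → ℂ) (N : ℕ) : A (fun n => a n + b n) N = A a N + A b N := by
  rw [A, A, A, Finset.sum_add_distrib, mul_add]

theorem A_sub (a b : ℕ → ℂ) (N : ℕ) : A (fun n => a n - b n) N = A a N - A b N := by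
  rw [A, A, A, Finset.sum_sub_distrib, mul_sub]

theorem A_mul (c : ℂ) (a : ℕ → ℂ) (N : ℕ) : A (fun n => c * a n) N = c * A a N := by
  rw [A, A, ← Finset.mul_sum]
  ring

variable {X : Type*} [mX : MeasurableSpace X] {μ : Measure X} {m : ℕ}

/-- The terms of the multiple averages. -/
def term (T : X → X) (f : Fin m → X → ℂ) (n : ℕ) (x : X) : ℂ :=
  ∏ j : Fin m, f j (T^[((j : ℕ) + 1) * (n + 1)] x)

/-- Convergence almost everywhere of the multiple averages. -/
def Cvg (μ : Measure X) (T : X → X) (f : Fin m → X → ℂ) : Prop :=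
  ∀ᵐ x ∂μ, ∃ L, Tendsto (A fun n => term T f n x) atTop (𝓝 L)

theorem term_meas {T : X → X} (hT : Measurable T) {f : Fin m → X → ℂ}
    (hf : ∀ j, Measurable (f j)) (n : ℕ) : Measurable (term T f n) := by
  unfold term
  apply Finset.measurable_fun_prod
  intro j _
  exact (hf j).comp (hT.iterate _)

omit mX in
theorem term_bound {T : X → X} {f : Fin m → X → ℂ} {C : ℝ}
    (hfC : ∀ j x, ‖f j x‖ ≤ C) (n : ℕ) (x : X) : ‖term T f n x‖ ≤ C ^ m := by
  rw [term, norm_prod]
  refine (Finset.prod_le_prod (fun _ _ => norm_nonneg _) fun j _ => hfC j _).trans ?_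
  rw [Finset.prod_const, Finset.card_univ, Fintype.card_fin]

theorem A_meas {a : ℕ → X → ℂ} (ha : ∀ n, Measurable (a n)) (N : ℕ) :
    Measurable fun x => A (fun n => a n x) N := by
  unfold A
  exact (Finset.measurable_fun_sum _ fun n _ => ha n).const_mul _

/-- Modifications on null sets. -/
theorem Cvg_congr {T : X → X} (hT : MeasurePreserving T μ μ) {f g : Fin m → X → ℂ}
    (h : ∀ j, f j =ᵐ[μ] g j) (hf : Cvg μ T f) : Cvg μ T g := by
  have h1 : ∀ᵐ x ∂μ, ∀ n : ℕ, ∀ j : Fin m, f j (T^[((j : ℕ) + 1) * (n + 1)] x) =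
      g j (T^[((j : ℕ) + 1) * (n + 1)] x) := by
    rw [ae_all_iff]
    intro n
    rw [ae_all_iff]
    intro j
    exact (hT.iterate _).quasiMeasurePreserving.ae (h j)
  filter_upwards [hf, h1] with x hx hx1
  obtain ⟨L, hL⟩ := hx
  refine ⟨L, hL.congr fun N => ?_⟩
  congr 1
  funext n
  exact Finset.prod_congr rfl fun j _ => hx1 n j

omit mX in
theorem term_update (T : X → X) (f : Fin m → X → ℂ) (j : Fin m) (g : X → ℂ) (n : ℕ) (x : X) :
    term T (Function.update f j g) n x =
      g (T^[((j : ℕ) + 1) * (n + 1)] x) *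
        ∏ l ∈ Finset.univ.erase j, f l (T^[((l : ℕ) + 1) * (n + 1)] x) := by
  rw [term, ← Finset.mul_prod_erase _ _ (Finset.mem_univ j), Function.update_self]
  congr 1
  apply Finset.prod_congr rfl
  intro l hl
  rw [Function.update_of_ne (Finset.ne_of_mem_erase hl)]

theorem Cvg_add {T : X → X} {f : Fin m → X → ℂ} {j : Fin m} {g g' : X → ℂ}
    (hg : Cvg μ T (Function.update f j g)) (hg' : Cvg μ T (Function.update f j g')) :
    Cvg μ T (Function.update f j (g + g')) := by
  filter_upwards [hg, hg'] with x hx hx'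
  obtain ⟨L, hL⟩ := hx
  obtain ⟨L', hL'⟩ := hx'
  refine ⟨L + L', (hL.add hL').congr fun N => ?_⟩
  rw [← A_add]
  congr 1
  funext n
  rw [term_update, term_update, term_update, Pi.add_apply]
  exact (add_mul _ _ _).symm

omit mX in
/-- Difference of two products of bounded numbers. -/
theorem prod_sub_le {C : ℝ} (hC : 1 ≤ C) {s : Finset (Fin m)} {a b : Fin m → ℂ}
    (ha : ∀ j, ‖a j‖ ≤ C) (hb : ∀ j, ‖b j‖ ≤ C) :
    ‖∏ j ∈ s, a j - ∏ j ∈ s, b j‖ ≤ C ^ m * ∑ j ∈ s, ‖a j - b j‖ := by
  have key : ‖∏ j ∈ s, a j - ∏ j ∈ s, b j‖ ≤ C ^ s.card * ∑ j ∈ s, ‖a j - b j‖ := by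
    induction s using Finset.induction_on with
    | empty => simp
    | insert j s hj ih =>
      rw [Finset.prod_insert hj, Finset.prod_insert hj, Finset.sum_insert hj,
        Finset.card_insert_of_notMem hj]
      have h1 : a j * ∏ l ∈ s, a l - b j * ∏ l ∈ s, b l =
          (a j - b j) * ∏ l ∈ s, a l + b j * (∏ l ∈ s, a l - ∏ l ∈ s, b l) := by ring
      rw [h1]
      have h2 : ‖∏ l ∈ s, a l‖ ≤ C ^ s.card := by
        rw [norm_prod]
        refine (Finset.prod_le_prod (fun _ _ => norm_nonneg _) fun j _ => ha j).trans ?_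
        rw [Finset.prod_const]
      have h3 : 1 ≤ C ^ s.card := one_le_pow₀ hC
      have h0 : 0 ≤ C := by linarith
      have h4 : 0 ≤ ∑ l ∈ s, ‖a l - b l‖ := Finset.sum_nonneg fun _ _ => norm_nonneg _
      have h5 : ‖(a j - b j) * ∏ l ∈ s, a l‖ ≤ ‖a j - b j‖ * C ^ s.card := by
        rw [norm_mul]
        exact mul_le_mul_of_nonneg_left h2 (norm_nonneg _)
      have h6 : ‖b j * (∏ l ∈ s, a l - ∏ l ∈ s, b l)‖ ≤
          C * (C ^ s.card * ∑ l ∈ s, ‖a l - b l‖) := by
        rw [norm_mul]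
        exact mul_le_mul (hb j) ih (norm_nonneg _) h0
      refine (norm_add_le _ _).trans ((add_le_add h5 h6).trans ?_)
      rw [pow_succ]
      have h7 : ‖a j - b j‖ * C ^ s.card ≤ ‖a j - b j‖ * C ^ s.card * C := by
        have : 0 ≤ ‖a j - b j‖ * C ^ s.card := by positivity
        nlinarith
      nlinarith
  refine key.trans ?_
  apply mul_le_mul_of_nonneg_right _ (Finset.sum_nonneg fun _ _ => norm_nonneg _)
  apply pow_le_pow_right₀ hC
  exact (Finset.card_le_univ s).trans (by rw [Fintype.card_fin])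

/-- Closure under approximation along the orbit. -/
theorem Cvg_closed [IsProbabilityMeasure μ] {T : X → X} (hT : MeasurePreserving T μ μ)
    {f : Fin m → X → ℂ} {C : ℝ} (hf : ∀ j, Measurable (f j)) (hfC : ∀ j x, ‖f j x‖ ≤ C)
    (h : ∀ ε : ℝ, 0 < ε → ∃ k : ℕ, ∃ g : Fin m → X → ℂ, (∀ j, Measurable (g j)) ∧
      (∀ j x, ‖g j x‖ ≤ C) ∧ (∀ j, ∫ x, ‖f j (T^[k] x) - g j x‖ ∂μ ≤ ε) ∧ Cvg μ T g) :
    Cvg μ T f := by
  wlog hC1 : 1 ≤ C generalizing C
  · refine this (C := max C 1) (fun j x => (hfC j x).trans (le_max_left _ _)) (fun ε hε => ?_)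
      (le_max_right _ _)
    obtain ⟨k, g, h1, h2, h3, h4⟩ := h ε hε
    exact ⟨k, g, h1, fun j x => (h2 j x).trans (le_max_left _ _), h3, h4⟩
  have hC0 : 0 ≤ C := by linarith
  set D : ℝ := C ^ m with hD
  have hD0 : 0 < D := by positivity
  have hbad : ∀ δ : ℝ, 0 < δ → ∀ᵐ x ∂μ, ∃ N₀, ∀ N, N₀ ≤ N → ∀ M, N₀ ≤ M →
      ‖A (fun n => term T f n x) N - A (fun n => term T f n x) M‖ ≤ δ := by
    intro δ hδ
    set B : Set X := {x | ¬ ∃ N₀, ∀ N, N₀ ≤ N → ∀ M, N₀ ≤ M →
      ‖A (fun n => term T f n x) N - A (fun n => term T f n x) M‖ ≤ δ} with hB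
    have hBm : MeasurableSet B := by
      have e : B = ⋂ N₀ : ℕ, ⋃ N : ℕ, ⋃ _ : N₀ ≤ N, ⋃ M : ℕ, ⋃ _ : N₀ ≤ M,
          {x | δ < ‖A (fun n => term T f n x) N - A (fun n => term T f n x) M‖} := by
        ext x
        simp only [hB, Set.mem_ofPred_eq, Set.mem_iInter, Set.mem_iUnion]
        push Not
        simp only [exists_prop]
      rw [e]
      refine MeasurableSet.iInter fun N₀ => MeasurableSet.iUnion fun N => MeasurableSet.iUnion
        fun _ => MeasurableSet.iUnion fun M => MeasurableSet.iUnion fun _ => ?_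
      apply measurableSet_lt measurable_const
      exact ((A_meas (fun n => term_meas hT.measurable hf n) N).sub
        (A_meas (fun n => term_meas hT.measurable hf n) M)).norm
    rw [ae_iff]
    show μ B = 0
    rw [← nonpos_iff_eq_zero]
    apply ENNReal.le_of_forall_pos_le_add
    intro ε hε _
    rw [zero_add]
    have hε' : (0 : ℝ) < ε := by exact_mod_cast hε
    obtain ⟨k, g, hgm, hgC, hfg, hg⟩ := h (ε * (δ / (4 * D)) / (m + 1)) (by positivity)
    rw [← (hT.iterate k).measure_preimage hBm.nullMeasurableSet]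
    let κ : Fin m → X → ℝ := fun j x => ‖f j (T^[k] x) - g j x‖
    have hκm : ∀ j, Measurable (κ j) := fun j =>
      (((hf j).comp (hT.measurable.iterate k)).sub (hgm j)).norm
    have hκb : ∀ j x, |κ j x| ≤ C + C := fun j x => by
      rw [abs_of_nonneg (norm_nonneg _)]
      exact (norm_sub_le _ _).trans (add_le_add (hfC j _) (hgC j x))
    have hTj : ∀ j : Fin m, MeasurePreserving T^[(j : ℕ) + 1] μ μ := fun j => hT.iterate _
    let κ' : Fin m → X → ℝ := fun j x => κ j (T^[(j : ℕ) + 1] x)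
    have hκ'm : ∀ j, Measurable (κ' j) := fun j => (hκm j).comp (hTj j).measurable
    have hBk := fun j => H165R3.BPE.birkhoff (hTj j) (κ' j) (hκ'm j) (C + C) fun x => hκb j _
    let E : Fin m → X → ℝ := fun j => μ[κ' j | MeasurableSpace.invariants T^[(j : ℕ) + 1]]
    have hκi : ∀ j, Integrable (κ' j) μ := fun j =>
      Integrable.of_bound (hκ'm j).aestronglyMeasurable (C + C)
        (Eventually.of_forall fun x => hκb j _)
    have hEint : ∀ j, ∫ x, E j x ∂μ ≤ ε * (δ / (4 * D)) / (m + 1) := by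
      intro j
      have h1 : ∫ x, E j x ∂μ = ∫ x, κ' j x ∂μ := integral_condExp (MeasurableSpace.invariants_le _)
      have h2 : ∫ x, κ' j x ∂μ = ∫ x, κ j x ∂μ := by
        have h4 := integral_map (μ := μ) (φ := T^[(j : ℕ) + 1]) (f := κ j)
          (hTj j).measurable.aemeasurable (hκm j).aestronglyMeasurable
        rw [(hTj j).map_eq] at h4
        exact h4.symm
      rw [h1, h2]
      exact hfg j
    have hE0 : ∀ j, 0 ≤ᵐ[μ] E j := fun j =>
      condExp_nonneg (Eventually.of_forall fun x => norm_nonneg _)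
    have hEi : ∀ j, Integrable (E j) μ := fun j => integrable_condExp
    have hSi : Integrable (fun x => ∑ j, E j x) μ := integrable_finsetSum _ fun j _ => hEi j
    have hS0 : 0 ≤ᵐ[μ] fun x => ∑ j, E j x := by
      have h1 : ∀ᵐ x ∂μ, ∀ j, 0 ≤ E j x := ae_all_iff.mpr hE0
      filter_upwards [h1] with x hx
      exact Finset.sum_nonneg fun j _ => hx j
    have hmark := mul_meas_ge_le_integral_of_nonneg hS0 hSi (δ / (4 * D))
    have hSint : ∫ x, ∑ j, E j x ∂μ ≤ δ / (4 * D) * ε := by
      rw [integral_finsetSum _ fun j _ => hEi j]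
      refine (Finset.sum_le_sum fun j _ => hEint j).trans ?_
      rw [Finset.sum_const, Finset.card_univ, Fintype.card_fin, nsmul_eq_mul]
      have h1 : (m : ℝ) * (ε * (δ / (4 * D)) / (m + 1)) = δ / (4 * D) * ε * (m / (m + 1)) := by
        ring
      rw [h1]
      have h2 : (m : ℝ) / (m + 1) ≤ 1 := by
        rw [div_le_one (by positivity)]
        linarith
      have h3 : (0 : ℝ) ≤ δ / (4 * D) * ε := by positivity
      nlinarith
    have hmark' : μ.real {x | δ / (4 * D) ≤ ∑ j, E j x} ≤ ε :=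
      le_of_mul_le_mul_left (hmark.trans hSint) (by positivity)
    have hsub : ∀ᵐ x ∂μ, x ∈ T^[k] ⁻¹' B → x ∈ {x | δ / (4 * D) ≤ ∑ j, E j x} := by
      filter_upwards [ae_all_iff.mpr hBk, hg] with x hx1 hx2 hx3
      show δ / (4 * D) ≤ ∑ j, E j x
      by_contra hcon
      rw [not_le] at hcon
      apply hx3
      obtain ⟨L, hL⟩ := hx2
      have hx1' : Tendsto (fun N : ℕ => ∑ j : Fin m, (N : ℝ)⁻¹ * ∑ n ∈ Finset.range N,
          κ' j ((T^[(j : ℕ) + 1])^[n] x)) atTop (𝓝 (∑ j, E j x)) :=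
        tendsto_finsetSum _ fun j _ => hx1 j
      have h2 := (tendsto_order.mp hx1').2 _ hcon
      obtain ⟨N₁, hN₁⟩ := eventually_atTop.mp h2
      obtain ⟨N₂, hN₂⟩ := Metric.tendsto_atTop.mp hL (δ / 4) (by positivity)
      have hclose : ∀ N, N₁ ≤ N → ‖A (fun n => term T f n (T^[k] x)) N -
          A (fun n => term T g n x) N‖ ≤ δ / 4 := by
        intro N hN
        rw [← A_sub, A, norm_mul, norm_inv, Complex.norm_natCast]
        have h3 : ‖∑ n ∈ Finset.range N, (term T f n (T^[k] x) - term T g n x)‖ ≤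
            D * ∑ n ∈ Finset.range N, ∑ j : Fin m, κ' j ((T^[(j : ℕ) + 1])^[n] x) := by
          refine (norm_sum_le _ _).trans ?_
          rw [Finset.mul_sum]
          apply Finset.sum_le_sum
          intro n _
          have h4 := prod_sub_le (m := m) hC1 (s := Finset.univ)
            (a := fun j => f j (T^[((j : ℕ) + 1) * (n + 1)] (T^[k] x)))
            (b := fun j => g j (T^[((j : ℕ) + 1) * (n + 1)] x)) (fun j => hfC j _)
            fun j => hgC j _
          refine h4.trans (le_of_eq ?_)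
          congr 1
          apply Finset.sum_congr rfl
          intro j _
          show _ = ‖f j (T^[k] (T^[(j : ℕ) + 1] ((T^[(j : ℕ) + 1])^[n] x))) -
            g j (T^[(j : ℕ) + 1] ((T^[(j : ℕ) + 1])^[n] x))‖
          have e1 : T^[k] (T^[(j : ℕ) + 1] ((T^[(j : ℕ) + 1])^[n] x)) =
              T^[((j : ℕ) + 1) * (n + 1)] (T^[k] x) := by
            rw [← Function.iterate_mul, ← Function.iterate_add_apply, ← Function.iterate_add_apply,
              ← Function.iterate_add_apply]
            congr 1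
            ring_nf
          have e2 : T^[(j : ℕ) + 1] ((T^[(j : ℕ) + 1])^[n] x) =
              T^[((j : ℕ) + 1) * (n + 1)] x := by
            rw [← Function.iterate_mul, ← Function.iterate_add_apply]
            congr 1
            ring_nf
          rw [e1, e2]
        have h5 := hN₁ N hN
        rw [← Finset.mul_sum, Finset.sum_comm] at h5
        calc (N : ℝ)⁻¹ * ‖_‖ ≤ (N : ℝ)⁻¹ * (D * ∑ n ∈ Finset.range N, ∑ j : Fin m,
                κ' j ((T^[(j : ℕ) + 1])^[n] x)) := mul_le_mul_of_nonneg_left h3 (by positivity)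
          _ = D * ((N : ℝ)⁻¹ * ∑ n ∈ Finset.range N, ∑ j : Fin m,
                κ' j ((T^[(j : ℕ) + 1])^[n] x)) := by ring
          _ ≤ D * (δ / (4 * D)) := mul_le_mul_of_nonneg_left h5.le hD0.le
          _ = δ / 4 := by field_simp
      refine ⟨max N₁ N₂, fun N hN M hM => ?_⟩
      have a1 := hclose N ((le_max_left _ _).trans hN)
      have a2 := hclose M ((le_max_left _ _).trans hM)
      have a3 : dist (A (fun n => term T g n x) N) L < δ / 4 := hN₂ N ((le_max_right _ _).trans hN)
      have a4 : dist (A (fun n => term T g n x) M) L < δ / 4 := hN₂ M ((le_max_right _ _).trans hM)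
      rw [dist_eq_norm] at a3 a4
      have e1 : A (fun n => term T f n (T^[k] x)) N - A (fun n => term T f n (T^[k] x)) M =
          (A (fun n => term T f n (T^[k] x)) N - A (fun n => term T g n x) N) +
          (A (fun n => term T g n x) N - L) - (A (fun n => term T g n x) M - L) -
          (A (fun n => term T f n (T^[k] x)) M - A (fun n => term T g n x) M) := by ring
      rw [e1]
      have b1 := norm_sub_le ((A (fun n => term T f n (T^[k] x)) N - A (fun n => term T g n x) N) +
          (A (fun n => term T g n x) N - L) - (A (fun n => term T g n x) M - L))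
          (A (fun n => term T f n (T^[k] x)) M - A (fun n => term T g n x) M)
      have b2 := norm_sub_le ((A (fun n => term T f n (T^[k] x)) N -
          A (fun n => term T g n x) N) + (A (fun n => term T g n x) N - L))
          (A (fun n => term T g n x) M - L)
      have b3 := norm_add_le (A (fun n => term T f n (T^[k] x)) N - A (fun n => term T g n x) N)
          (A (fun n => term T g n x) N - L)
      linarith
    have h10 : μ (T^[k] ⁻¹' B) ≤ μ {x | δ / (4 * D) ≤ ∑ j, E j x} := measure_mono_ae hsub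
    refine h10.trans ?_
    have h9 : μ {x | δ / (4 * D) ≤ ∑ j, E j x} =
        ENNReal.ofReal (μ.real {x | δ / (4 * D) ≤ ∑ j, E j x}) := by
      rw [measureReal_def, ENNReal.ofReal_toReal (measure_ne_top _ _)]
    rw [h9]
    calc ENNReal.ofReal (μ.real {x | δ / (4 * D) ≤ ∑ j, E j x}) ≤ ENNReal.ofReal (ε : ℝ) :=
          ENNReal.ofReal_le_ofReal hmark'
      _ = ε := ENNReal.ofReal_coe_nnreal
  have hall := ae_all_iff.mpr fun i : ℕ => hbad (1 / ((i : ℝ) + 1)) (by positivity)
  filter_upwards [hall] with x hx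
  apply cauchySeq_tendsto_of_complete
  rw [Metric.cauchySeq_iff']
  intro ε hε
  obtain ⟨i, hi⟩ := exists_nat_one_div_lt hε
  obtain ⟨N₀, hN₀⟩ := hx i
  refine ⟨N₀, fun n hn => ?_⟩
  rw [dist_eq_norm]
  exact (hN₀ n hn N₀ le_rfl).trans_lt hi

end Pool.Agent.W761.Tail
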