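import Pool.Agent.W761.Tail.Cls

/-!
# Reduction to functions of the tail
-/

set_option autoImplicit false

open Filter Topology MeasureTheory
open scoped ENNReal NNReal ComplexConjugate

noncomputable section

namespace Pool.Agent.W761.Tail

open Pool.Agent.W761.Gauss (BM)

variable {X : Type} {𝒜 : MeasurableSpace X} [mX : MeasurableSpace X] {μ : Measure X} {m : ℕ}
  {T : X → X}

/-- Zero averages for centered functions. -/
theorem Cvg_cen [IsProbabilityMeasure μ] (h𝒜 : 𝒜 ≤ mX) (hinv : 𝒜.comap T ≤ 𝒜)
    (hT : MeasurePreserving T μ μ) {f : Fin m → X → ℂ} (j : Fin m) {k : ℕ} {φ : X → ℂ}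
    (hf : ∀ l, BM (f l)) (h1 : ∀ l : Fin m, (l : ℕ) < j → ∀ r, W μ T 𝒜 r (f l))
    (h2 : ∀ l : Fin m, (j : ℕ) < l → W μ T 𝒜 0 (f l)) (hφ : Measurable[𝒜] φ)
    {C : ℝ} (hC : ∀ x, ‖φ x‖ ≤ C) (hcen : Cen μ T 𝒜 k φ) :
    Cvg μ T (Function.update f j φ) := by
  have hφm : Measurable φ := hφ.mono h𝒜 le_rfl
  have hφW : W μ T 𝒜 0 φ := ⟨φ, hφ, ⟨C, hC⟩, Eventually.of_forall fun x => rfl⟩
  have hWφ : ∀ {s t : ℕ}, s ≤ t → W μ T 𝒜 s (φ ∘ T^[t]) := by
    intro s t h
    have := (hφW.comp hT t).mono hinv (r := s) (by omega)
    exact this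
  have hWl : ∀ (l : Fin m), l ≠ j → ∀ {n s : ℕ}, ((j : ℕ) < l → s ≤ ((l : ℕ) + 1) * (n + 1)) →
      W μ T 𝒜 s (f l ∘ T^[((l : ℕ) + 1) * (n + 1)]) := by
    intro l hl n s hs
    rcases lt_trichotomy (l : ℕ) (j : ℕ) with h | h | h
    · exact ((h1 l h s).comp hT _).mono hinv (by omega)
    · exact absurd (Fin.ext h) hl
    · have := ((h2 l h).comp hT (((l : ℕ) + 1) * (n + 1))).mono hinv (r := s)
        (by have := hs h; omega)
      exact this
  choose hfm CF hCF using hf
  set g := Function.update f j φ with hg
  have hgm : ∀ l, Measurable (g l) := by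
    intro l
    by_cases h : l = j
    · subst h
      rw [hg, Function.update_self]
      exact hφm
    · rw [hg, Function.update_of_ne h]
      exact hfm l
  set D : ℝ := |C| + ∑ l, |CF l| with hD
  have hgD : ∀ l x, ‖g l x‖ ≤ D := by
    intro l x
    by_cases h : l = j
    · subst h
      rw [hg, Function.update_self]
      have h3 : 0 ≤ ∑ l, |CF l| := Finset.sum_nonneg fun _ _ => abs_nonneg _
      have h4 := (hC x).trans (le_abs_self C)
      linarith
    · rw [hg, Function.update_of_ne h]
      have h3 : |CF l| ≤ ∑ l, |CF l| :=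
        Finset.single_le_sum (f := fun l => |CF l|) (fun _ _ => abs_nonneg _) (Finset.mem_univ l)
      have h4 := (hCF l x).trans (le_abs_self (CF l))
      have h5 := abs_nonneg C
      linarith
  have h0 : ∀ᵐ x ∂μ, Tendsto (A fun n => term T g n x) atTop (𝓝 0) := by
    refine slln (K := k) (C := D ^ m) (fun n => term_meas hT.measurable hgm n)
      (fun n x => term_bound hgD n x) ?_
    intro n n' hn hn'
    let u : X → ℂ := fun x => (∏ l ∈ Finset.univ.erase j, f l (T^[((l : ℕ) + 1) * (n + 1)] x)) *
      conj (term T g n' x)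
    have hu : W μ T 𝒜 (k + ((j : ℕ) + 1) * (n + 1)) u := by
      refine W.mul (W.prod _ fun l hl => ?_) (W.conj (W.prod _ fun l _ => ?_))
      · have hlj := Finset.ne_of_mem_erase hl
        refine hWl l hlj fun h => ?_
        have h3 : ((j : ℕ) + 1 + 1) * (n + 1) ≤ ((l : ℕ) + 1) * (n + 1) :=
          Nat.mul_le_mul_right _ (by omega)
        nlinarith
      · by_cases hlj : l = j
        · subst hlj
          rw [hg, Function.update_self]
          have h3 : k + ((l : ℕ) + 1) * (n + 1) ≤ ((l : ℕ) + 1) * (n' + 1) := by nlinarith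
          exact hWφ h3
        · rw [hg, Function.update_of_ne hlj]
          refine hWl l hlj fun h => ?_
          have h3 : ((j : ℕ) + 1) * (n' + 1) ≤ ((l : ℕ) + 1) * (n' + 1) :=
            Nat.mul_le_mul_right _ (by omega)
          nlinarith
    have h3 := hcen.zero h𝒜 hT hφm (((j : ℕ) + 1) * (n + 1)) hu
    rw [← h3]
    apply integral_congr_ae
    refine Eventually.of_forall fun x => ?_
    show term T g n x * conj (term T g n' x) = _
    have h4 : term T g n x = φ (T^[((j : ℕ) + 1) * (n + 1)] x) *
        ∏ l ∈ Finset.univ.erase j, f l (T^[((l : ℕ) + 1) * (n + 1)] x) := term_update T f j φ n x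
    rw [h4, mul_assoc]
  filter_upwards [h0] with x hx
  exact ⟨0, hx⟩

/-- Reduction, for functions measurable for `𝒜`. -/
theorem red [IsProbabilityMeasure μ] (h𝒜 : 𝒜 ≤ mX) (hinv : 𝒜.comap T ≤ 𝒜)
    (hT : MeasurePreserving T μ μ)
    (hbase : ∀ f : Fin m → X → ℂ, (∀ l, BM (f l)) → (∀ l r, W μ T 𝒜 r (f l)) → Cvg μ T f) :
    ∀ (d j : ℕ), j + d = m → ∀ f : Fin m → X → ℂ, (∀ l, BM (f l)) →
      (∀ l : Fin m, (l : ℕ) < j → ∀ r, W μ T 𝒜 r (f l)) →
      (∀ l : Fin m, j ≤ (l : ℕ) → W μ T 𝒜 0 (f l)) → Cvg μ T f := by
  intro d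
  induction d with
  | zero =>
    intro j hj f hf h1 _
    exact hbase f hf fun l r => h1 l (by omega) r
  | succ d ih =>
    intro j hj f hf h1 h2
    let J : Fin m := ⟨j, by omega⟩
    obtain ⟨w, hw, ⟨C, hC⟩, e⟩ := h2 J le_rfl
    have hwm : Measurable w := hw.mono h𝒜 le_rfl
    have e' : f J =ᵐ[μ] w := e
    obtain ⟨v, hvm, hvC, hvW, happ⟩ := decomp h𝒜 hinv hT hw hC
    have hne : ∀ {l : Fin m}, l ≠ J → (l : ℕ) ≠ j := fun {l} hl h => hl (Fin.ext h)
    have hv : Cvg μ T (Function.update f J v) := by
      apply ih (j + 1) (by omega)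
      · intro l
        by_cases h : l = J
        · subst h
          rw [Function.update_self]
          exact ⟨hvm, C, hvC⟩
        · rw [Function.update_of_ne h]
          exact hf l
      · intro l hl r
        by_cases h : l = J
        · subst h
          rw [Function.update_self]
          exact hvW r
        · rw [Function.update_of_ne h]
          exact h1 l (by have := hne h; omega) r
      · intro l hl
        have h : l ≠ J := by
          rintro rfl
          exact absurd hl (by show ¬ (j + 1 ≤ j); omega)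
        rw [Function.update_of_ne h]
        exact h2 l (by omega)
    have hw' : Cvg μ T (Function.update f J w) := by
      choose hfm CF hCF using hf
      set D : ℝ := (|C| + |C| + |C|) + ∑ l, |CF l| with hD
      have hS : 0 ≤ ∑ l, |CF l| := Finset.sum_nonneg fun _ _ => abs_nonneg _
      have hS' : ∀ l, |CF l| ≤ ∑ l, |CF l| := fun l =>
        Finset.single_le_sum (f := fun l => |CF l|) (fun _ _ => abs_nonneg _) (Finset.mem_univ l)
      have hup : ∀ {g : X → ℂ}, (∀ x, ‖g x‖ ≤ |C| + |C| + |C|) → ∀ l x,
          ‖Function.update f J g l x‖ ≤ D := by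
        intro g hg l x
        by_cases h : l = J
        · subst h
          rw [Function.update_self]
          have := hg x
          linarith
        · rw [Function.update_of_ne h]
          have h3 := hS' l
          have h4 := (hCF l x).trans (le_abs_self (CF l))
          have h5 := abs_nonneg C
          linarith
      have hupm : ∀ {g : X → ℂ}, Measurable g → ∀ l, Measurable (Function.update f J g l) := by
        intro g hg l
        by_cases h : l = J
        · subst h
          rw [Function.update_self]
          exact hg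
        · rw [Function.update_of_ne h]
          exact hfm l
      have hCa := le_abs_self C
      have hCn := abs_nonneg C
      refine Cvg_closed hT (C := D) (hupm hwm) (hup fun x => by have := hC x; linarith)
        fun ε hε => ?_
      obtain ⟨k, φ, hφ, hφC, hcen, hint⟩ := happ ε hε
      have hφm : Measurable φ := hφ.mono h𝒜 le_rfl
      refine ⟨0, Function.update f J (φ + v), hupm (hφm.add hvm), hup fun x => ?_, fun l => ?_, ?_⟩
      · have h3 := norm_add_le (φ x) (v x)
        have h4 := hφC x
        have h5 := hvC x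
        show ‖φ x + v x‖ ≤ _
        linarith
      · by_cases h : l = J
        · subst h
          rw [Function.update_self, Function.update_self]
          exact hint
        · rw [Function.update_of_ne h, Function.update_of_ne h]
          simp only [Function.iterate_zero, id_eq, sub_self, norm_zero, integral_zero]
          exact hε.le
      · refine Cvg_add ?_ hv
        exact Cvg_cen h𝒜 hinv hT J (fun l => ⟨hfm l, CF l, hCF l⟩) (fun l hl r => h1 l hl r)
          (fun l hl => h2 l hl.le) hφ hφC hcen
    refine Cvg_congr hT (fun l => ?_) hw'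
    by_cases h : l = J
    · subst h
      rw [Function.update_self]
      exact e'.symm
    · rw [Function.update_of_ne h]

end Pool.Agent.W761.Tail
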