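import Pool.Agent.W761.Tail.One

/-!
# Averages of bounded sequences which are orthogonal at distance
-/

set_option autoImplicit false

open Filter Topology MeasureTheory
open scoped ENNReal NNReal ComplexConjugate

noncomputable section

namespace Pool.Agent.W761.Tail

variable {X : Type*} [mX : MeasurableSpace X] {μ : Measure X}

/-- Passage from squares to all integers. -/
theorem A_of_squares {a : ℕ → ℂ} {C : ℝ} (ha : ∀ n, ‖a n‖ ≤ C)
    (h : Tendsto (fun M : ℕ => A a ((M + 1) ^ 2)) atTop (𝓝 0)) : Tendsto (A a) atTop (𝓝 0) := by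
  have hC : 0 ≤ C := (norm_nonneg _).trans (ha 0)
  have hsq : Tendsto (fun N : ℕ => Nat.sqrt N - 1) atTop atTop := by
    rw [tendsto_atTop_atTop]
    intro b
    refine ⟨(b + 1) ^ 2, fun N hN => ?_⟩
    have h1 : b + 1 ≤ Nat.sqrt N := by
      rw [Nat.le_sqrt']
      exact hN
    omega
  have h1 := h.comp hsq
  have h2 : Tendsto (fun N : ℕ => ‖A a ((Nat.sqrt N - 1 + 1) ^ 2)‖ + 4 * C / (Nat.sqrt N : ℝ))
      atTop (𝓝 0) := by
    have h3 : Tendsto (fun N : ℕ => 4 * C / (Nat.sqrt N : ℝ)) atTop (𝓝 0) := by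
      apply Tendsto.const_div_atTop
      apply tendsto_natCast_atTop_atTop.comp
      rw [tendsto_atTop_atTop]
      intro b
      exact ⟨b ^ 2, fun N hN => by rwa [Nat.le_sqrt']⟩
    have h4 := h1.norm.add h3
    simp only [norm_zero, add_zero] at h4
    exact h4
  rw [tendsto_zero_iff_norm_tendsto_zero]
  refine squeeze_zero' (Eventually.of_forall fun N => norm_nonneg _) ?_ h2
  filter_upwards [eventually_ge_atTop 1] with N hN
  set M := Nat.sqrt N with hM
  have hM1 : 1 ≤ M := by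
    rw [hM, Nat.le_sqrt']
    simpa using hN
  have hM2 : M ^ 2 ≤ N := Nat.sqrt_le' N
  have hM3 : N < (M + 1) ^ 2 := Nat.lt_succ_sqrt' N
  have hMe : M - 1 + 1 = M := by omega
  rw [hMe]
  have hN0 : (0 : ℝ) < N := by exact_mod_cast hN
  have hMr : (0 : ℝ) < M := by exact_mod_cast hM1
  have hM2r : (M : ℝ) ^ 2 ≤ N := by exact_mod_cast hM2
  have hM3r : (N : ℝ) ≤ M ^ 2 + 2 * M := by
    have : N ≤ M ^ 2 + 2 * M := by nlinarith
    exact_mod_cast this
  have e1 : A a N = (N : ℂ)⁻¹ * ((M ^ 2 : ℕ) : ℂ) * A a (M ^ 2) +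
      (N : ℂ)⁻¹ * ∑ n ∈ Finset.Ico (M ^ 2) N, a n := by
    rw [A, A, ← Finset.sum_range_add_sum_Ico a hM2]
    have h5 : ((M ^ 2 : ℕ) : ℂ) ≠ 0 := by
      rw [Nat.cast_ne_zero]
      positivity
    field_simp
  have e2 : ‖(N : ℂ)⁻¹ * ((M ^ 2 : ℕ) : ℂ) * A a (M ^ 2)‖ ≤ ‖A a (M ^ 2)‖ := by
    rw [norm_mul, norm_mul, norm_inv, Complex.norm_natCast, Complex.norm_natCast]
    have h6 : (N : ℝ)⁻¹ * ((M ^ 2 : ℕ) : ℝ) ≤ 1 := by
      rw [inv_mul_le_iff₀ hN0, mul_one]
      exact_mod_cast hM2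
    exact mul_le_of_le_one_left (norm_nonneg _) h6
  have e3 : ‖(N : ℂ)⁻¹ * ∑ n ∈ Finset.Ico (M ^ 2) N, a n‖ ≤ 4 * C / M := by
    rw [norm_mul, norm_inv, Complex.norm_natCast]
    have h7 : ‖∑ n ∈ Finset.Ico (M ^ 2) N, a n‖ ≤ (2 * M) * C := by
      refine (norm_sum_le _ _).trans ((Finset.sum_le_sum fun n _ => ha n).trans ?_)
      rw [Finset.sum_const, Nat.card_Ico, nsmul_eq_mul]
      apply mul_le_mul_of_nonneg_right _ hC
      rw [Nat.cast_sub hM2]
      push_cast
      linarith
    calc (N : ℝ)⁻¹ * ‖∑ n ∈ Finset.Ico (M ^ 2) N, a n‖ ≤ ((M : ℝ) ^ 2)⁻¹ * ((2 * M) * C) :=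
          mul_le_mul (inv_anti₀ (by positivity) hM2r) h7 (norm_nonneg _) (by positivity)
      _ = 2 * C / M := by field_simp
      _ ≤ 4 * C / M := by
          apply div_le_div_of_nonneg_right _ hMr.le
          linarith
  rw [e1]
  exact (norm_add_le _ _).trans (add_le_add e2 e3)

/-- Averages of bounded functions which are orthogonal at distance `K`. -/
theorem slln [IsProbabilityMeasure μ] {Ψ : ℕ → X → ℂ} (hm : ∀ n, Measurable (Ψ n)) {C : ℝ}
    (hC : ∀ n x, ‖Ψ n x‖ ≤ C) {K : ℕ}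
    (horth : ∀ n n', K ≤ n → n + K ≤ n' → ∫ x, Ψ n x * conj (Ψ n' x) ∂μ = 0) :
    ∀ᵐ x ∂μ, Tendsto (A fun n => Ψ n x) atTop (𝓝 0) := by
  have hC0 : 0 ≤ C := by
    obtain ⟨x⟩ : Nonempty X := by
      by_contra h
      rw [not_nonempty_iff] at h
      have h1 : μ Set.univ = 0 := by
        rw [Set.univ_eq_empty_iff.mpr h, measure_empty]
      rw [measure_univ] at h1
      exact one_ne_zero h1
    exact (norm_nonneg _).trans (hC 0 x)
  have hint : ∀ n n', Integrable (fun x => Ψ n x * conj (Ψ n' x)) μ := by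
    intro n n'
    refine Integrable.of_bound ?_ (C * C) (Eventually.of_forall fun x => ?_)
    · exact ((hm n).mul (Complex.continuous_conj.measurable.comp (hm n'))).aestronglyMeasurable
    · rw [norm_mul, RCLike.norm_conj]
      exact mul_le_mul (hC n x) (hC n' x) (norm_nonneg _) hC0
  have hI : ∀ n n', ‖∫ x, Ψ n x * conj (Ψ n' x) ∂μ‖ ≤ C ^ 2 *
      ((if n < K then 1 else 0) + (if n' < K then 1 else 0) +
        (if n < n' + K ∧ n' < n + K then 1 else 0)) := by
    intro n n'
    have hb : ‖∫ x, Ψ n x * conj (Ψ n' x) ∂μ‖ ≤ C ^ 2 := by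
      have h1 := norm_integral_le_of_norm_le_const (μ := μ)
        (f := fun x => Ψ n x * conj (Ψ n' x)) (C := C ^ 2) (Eventually.of_forall fun x => by
          rw [norm_mul, RCLike.norm_conj, sq]
          exact mul_le_mul (hC n x) (hC n' x) (norm_nonneg _) hC0)
      rwa [probReal_univ, mul_one] at h1
    by_cases h1 : n < K
    · refine hb.trans (le_mul_of_one_le_right (by positivity) ?_)
      rw [if_pos h1]
      split_ifs <;> norm_num
    by_cases h2 : n' < K
    · refine hb.trans (le_mul_of_one_le_right (by positivity) ?_)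
      rw [if_pos h2]
      split_ifs <;> norm_num
    by_cases h3 : n < n' + K ∧ n' < n + K
    · refine hb.trans (le_mul_of_one_le_right (by positivity) ?_)
      rw [if_pos h3]
      split_ifs <;> norm_num
    have h4 : ∫ x, Ψ n x * conj (Ψ n' x) ∂μ = 0 := by
      rcases lt_or_ge n' (n + K) with h5 | h5
      · have h6 : n' + K ≤ n := by
          by_contra h7
          exact h3 ⟨by omega, h5⟩
        have h7 := horth n' n (by omega) h6
        have h8 : ∫ x, Ψ n x * conj (Ψ n' x) ∂μ = conj (∫ x, Ψ n' x * conj (Ψ n x) ∂μ) := by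
          rw [← integral_conj]
          congr 1
          funext x
          rw [map_mul, Complex.conj_conj, mul_comm]
        rw [h8, h7, map_zero]
      · exact horth n n' (by omega) h5
    rw [h4, norm_zero]
    positivity
  have hL2 : ∀ N : ℕ, ∫ x, ‖∑ n ∈ Finset.range N, Ψ n x‖ ^ 2 ∂μ ≤ 4 * K * C ^ 2 * N := by
    intro N
    have e1 : ((∫ x, ‖∑ n ∈ Finset.range N, Ψ n x‖ ^ 2 ∂μ : ℝ) : ℂ) =
        ∑ n ∈ Finset.range N, ∑ n' ∈ Finset.range N, ∫ x, Ψ n x * conj (Ψ n' x) ∂μ := by
      have e2 : ((∫ x, ‖∑ n ∈ Finset.range N, Ψ n x‖ ^ 2 ∂μ : ℝ) : ℂ) =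
          ∫ x, ((‖∑ n ∈ Finset.range N, Ψ n x‖ ^ 2 : ℝ) : ℂ) ∂μ := integral_complex_ofReal.symm
      rw [e2]
      have e3 : ∀ x, ((‖∑ n ∈ Finset.range N, Ψ n x‖ ^ 2 : ℝ) : ℂ) =
          ∑ n ∈ Finset.range N, ∑ n' ∈ Finset.range N, Ψ n x * conj (Ψ n' x) := by
        intro x
        rw [← Complex.normSq_eq_norm_sq, ← Complex.mul_conj, map_sum, Finset.sum_mul_sum]
      simp only [e3]
      rw [integral_finsetSum _ fun n _ => integrable_finsetSum _ fun n' _ => hint n n']
      apply Finset.sum_congr rfl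
      intro n _
      rw [integral_finsetSum _ fun n' _ => hint n n']
    have h0 : 0 ≤ ∫ x, ‖∑ n ∈ Finset.range N, Ψ n x‖ ^ 2 ∂μ :=
      integral_nonneg fun x => by positivity
    have h1 : ∫ x, ‖∑ n ∈ Finset.range N, Ψ n x‖ ^ 2 ∂μ =
        ‖((∫ x, ‖∑ n ∈ Finset.range N, Ψ n x‖ ^ 2 ∂μ : ℝ) : ℂ)‖ := by
      rw [Complex.norm_real, Real.norm_of_nonneg h0]
    rw [h1, e1]
    have h2 : ‖∑ n ∈ Finset.range N, ∑ n' ∈ Finset.range N, ∫ x, Ψ n x * conj (Ψ n' x) ∂μ‖ ≤
        ∑ n ∈ Finset.range N, ∑ n' ∈ Finset.range N, C ^ 2 *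
      ((if n < K then 1 else 0) + (if n' < K then 1 else 0) +
        (if n < n' + K ∧ n' < n + K then 1 else 0)) := by
      refine (norm_sum_le _ _).trans (Finset.sum_le_sum fun n _ => ?_)
      exact (norm_sum_le _ _).trans (Finset.sum_le_sum fun n' _ => hI n n')
    refine h2.trans ?_
    have c1 : ∀ N : ℕ, ∑ n ∈ Finset.range N, (if n < K then (1 : ℝ) else 0) ≤ K := by
      intro N
      rw [Finset.sum_boole]
      have : (Finset.filter (fun n => n < K) (Finset.range N)).card ≤ K := by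
        calc (Finset.filter (fun n => n < K) (Finset.range N)).card ≤ (Finset.range K).card := by
              apply Finset.card_le_card
              intro n hn
              rw [Finset.mem_filter] at hn
              exact Finset.mem_range.mpr hn.2
          _ = K := Finset.card_range K
      exact_mod_cast this
    have c2 : ∀ n : ℕ, ∑ n' ∈ Finset.range N, (if n < n' + K ∧ n' < n + K then (1 : ℝ) else 0) ≤
        2 * K := by
      intro n
      rw [Finset.sum_boole]
      have : (Finset.filter (fun n' => n < n' + K ∧ n' < n + K) (Finset.range N)).card ≤ 2 * K := by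
        calc (Finset.filter (fun n' => n < n' + K ∧ n' < n + K) (Finset.range N)).card ≤
              (Finset.Ico (n + 1 - K) (n + K)).card := by
              apply Finset.card_le_card
              intro n' hn
              rw [Finset.mem_filter] at hn
              rw [Finset.mem_Ico]
              omega
          _ ≤ 2 * K := by
              rw [Nat.card_Ico]
              omega
      exact_mod_cast this
    calc ∑ n ∈ Finset.range N, ∑ n' ∈ Finset.range N, C ^ 2 *
      ((if n < K then (1 : ℝ) else 0) + (if n' < K then 1 else 0) +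
        (if n < n' + K ∧ n' < n + K then 1 else 0))
        ≤ ∑ n ∈ Finset.range N, C ^ 2 * (N * (if n < K then (1 : ℝ) else 0) + K + 2 * K) := by
          apply Finset.sum_le_sum
          intro n _
          rw [← Finset.mul_sum]
          apply mul_le_mul_of_nonneg_left _ (by positivity)
          rw [Finset.sum_add_distrib, Finset.sum_add_distrib]
          refine add_le_add (add_le_add (le_of_eq ?_) (c1 N)) (c2 n)
          rw [Finset.sum_const, Finset.card_range, nsmul_eq_mul]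
      _ = C ^ 2 * (N * (∑ n ∈ Finset.range N, (if n < K then (1 : ℝ) else 0)) + N * (3 * K)) := by
          rw [← Finset.mul_sum, Finset.sum_add_distrib, Finset.sum_add_distrib, ← Finset.mul_sum,
            Finset.sum_const, Finset.sum_const, Finset.card_range, nsmul_eq_mul, nsmul_eq_mul]
          ring
      _ ≤ C ^ 2 * (N * K + N * (3 * K)) := by
          apply mul_le_mul_of_nonneg_left _ (by positivity)
          have := mul_le_mul_of_nonneg_left (c1 N) (Nat.cast_nonneg (α := ℝ) N)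
          linarith
      _ = 4 * K * C ^ 2 * N := by ring
  -- almost everywhere convergence along squares
  have hSm : ∀ N : ℕ, Measurable fun x => A (fun n => Ψ n x) N := A_meas hm
  have hAb : ∀ N x, ‖A (fun n => Ψ n x) N‖ ≤ C := fun N x => A_bound (fun n => hC n x) N
  have hA2 : ∀ M : ℕ, ∫ x, ‖A (fun n => Ψ n x) ((M + 1) ^ 2)‖ ^ 2 ∂μ ≤
      4 * K * C ^ 2 * (1 / ((M : ℝ) + 1) ^ 2) := by
    intro M
    have e1 : ∀ x, ‖A (fun n => Ψ n x) ((M + 1) ^ 2)‖ ^ 2 =
        (1 / ((M : ℝ) + 1) ^ 4) * ‖∑ n ∈ Finset.range ((M + 1) ^ 2), Ψ n x‖ ^ 2 := by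
      intro x
      rw [A, norm_mul, norm_inv, Complex.norm_natCast, mul_pow]
      congr 1
      push_cast
      rw [one_div, inv_pow, ← pow_mul]
    simp only [e1]
    rw [integral_const_mul]
    have h1 := hL2 ((M + 1) ^ 2)
    have h2 : (0 : ℝ) ≤ 1 / ((M : ℝ) + 1) ^ 4 := by positivity
    refine (mul_le_mul_of_nonneg_left h1 h2).trans (le_of_eq ?_)
    push_cast
    field_simp
  have hsum : ∑' M : ℕ, ∫⁻ x, ENNReal.ofReal (‖A (fun n => Ψ n x) ((M + 1) ^ 2)‖ ^ 2) ∂μ ≠ ∞ := by
    have h1 : ∀ M : ℕ, ∫⁻ x, ENNReal.ofReal (‖A (fun n => Ψ n x) ((M + 1) ^ 2)‖ ^ 2) ∂μ ≤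
        ENNReal.ofReal (4 * K * C ^ 2 * (1 / ((M : ℝ) + 1) ^ 2)) := by
      intro M
      rw [← ofReal_integral_eq_lintegral_ofReal]
      · exact ENNReal.ofReal_le_ofReal (hA2 M)
      · refine Integrable.of_bound ((hSm _).norm.pow_const 2).aestronglyMeasurable (C ^ 2)
          (Eventually.of_forall fun x => ?_)
        rw [Real.norm_of_nonneg (by positivity)]
        exact pow_le_pow_left₀ (norm_nonneg _) (hAb _ x) 2
      · exact Eventually.of_forall fun x => by positivity
    have h2 : Summable fun M : ℕ => 4 * K * C ^ 2 * (1 / ((M : ℝ) + 1) ^ 2) := by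
      apply Summable.mul_left
      have h3 := (summable_nat_add_iff 1).mpr (Real.summable_one_div_nat_pow.mpr one_lt_two)
      refine h3.congr fun M => ?_
      push_cast
      rfl
    refine ne_top_of_le_ne_top ?_ (ENNReal.tsum_le_tsum h1)
    rw [← ENNReal.ofReal_tsum_of_nonneg (fun M => by positivity) h2]
    exact ENNReal.ofReal_ne_top
  rw [← lintegral_tsum (fun M => ((hSm _).norm.pow_const 2).ennreal_ofReal.aemeasurable)] at hsum
  have hae := ae_lt_top (Measurable.ennreal_tsum fun M =>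
    ((hSm ((M + 1) ^ 2)).norm.pow_const 2).ennreal_ofReal) hsum
  filter_upwards [hae] with x hx
  apply A_of_squares (fun n => hC n x)
  have h3 := ENNReal.tendsto_atTop_zero_of_tsum_ne_top hx.ne
  have h4 : Tendsto (fun M : ℕ => ‖A (fun n => Ψ n x) ((M + 1) ^ 2)‖ ^ 2) atTop (𝓝 0) := by
    have h5 := (ENNReal.tendsto_toReal ENNReal.zero_ne_top).comp h3
    rw [ENNReal.toReal_zero] at h5
    refine h5.congr fun M => ?_
    rw [Function.comp_apply, ENNReal.toReal_ofReal (by positivity)]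
  rw [tendsto_zero_iff_norm_tendsto_zero]
  have h6 := h4.sqrt
  rw [Real.sqrt_zero] at h6
  refine h6.congr fun M => ?_
  rw [Real.sqrt_sq (norm_nonneg _)]

end Pool.Agent.W761.Tail
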